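import Mathlib
import Pool.Agent.J4H26.KP.Sup

set_option autoImplicit false

/-! Project KP, piece P5: coalescing walks in two groups, apart from each other and in few clusters. -/

namespace Pool.Agent.J4H18.KP

open Finset Filter Real
open Pool.Agent.J4H39 (U)
open Pool.Agent.J4H39.KP (nc cw_ne cw_nc tail_iw cells_le)
open Pool.Agent.J4H26.AF (moves)
open Pool.Agent.J4H26.KT (iw cw sw cw_zero cw_succ mpos iw_succ isE_cw isE_iw sw_nonneg sw_mono iw_single)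
open Pool.Agent.J4H26.KP (Sep sepW le1 ge1 S_UL S_QNT S_SUPW)

variable {K : ℕ}

/-- coalescing walks keep the weak order -/
theorem cw_ord {f g : (Fin K → ℤ) → ℝ} (s : ℕ) : ∀ z : Fin K → ℤ,
    (∀ u : Fin K → ℤ, (∀ i j, z i ≤ z j → u i ≤ u j) → f u ≤ g u) → cw f s z ≤ cw g s z := by
  induction s with
  | zero => intro z h; exact h z (fun i j hij => hij)
  | succ s ih =>
    intro z h
    rw [cw_succ, cw_succ]
    refine div_le_div_of_nonneg_right (sum_le_sum fun p hp => ih _ (fun u hu => h u (fun i j hij => ?_))) (mpos z).le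
    apply hu
    unfold moves at hp
    rw [mem_filter] at hp
    rcases hij.lt_or_eq with h2 | h2
    · have h3 := (p i).isLt
      omega
    · rw [h2, hp.2 i j h2]

open Classical in
/-- the two groups stay apart with probability at least `c` -/
theorem sep_prob {a : ℕ} {c : ℝ} (hc1 : c ≤ 1) {k : ℕ} {L : ℝ} (hU : ∀ d : ℤ, L ≤ |(d : ℝ)| → c ≤ U (2 * k) (2 * d))
    (z : Fin K → ℤ) (p q : ℤ) (hL : L ≤ (q : ℝ) - p) (hpq : p ≤ q) (h1 : ∀ i : Fin K, (i : ℕ) < a → z i ≤ p)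
    (h2 : ∀ j : Fin K, a ≤ (j : ℕ) → q ≤ z j) :
    c ≤ cw (fun u : Fin K → ℤ => if Sep a u then (1 : ℝ) else 0) k z := by
  obtain ⟨A, hA⟩ : ∃ A : Finset (Fin K), A = univ.filter (fun i : Fin K => (i : ℕ) < a) := ⟨_, rfl⟩
  obtain ⟨B, hB⟩ : ∃ B : Finset (Fin K), B = univ.filter (fun i : Fin K => a ≤ (i : ℕ)) := ⟨_, rfl⟩
  by_cases hAB : A.Nonempty ∧ B.Nonempty
  · obtain ⟨i₀, hi₀, him⟩ := exists_max_image A z hAB.1
    obtain ⟨j₀, hj₀, hjm⟩ := exists_min_image B z hAB.2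
    rw [hA, mem_filter] at hi₀
    rw [hB, mem_filter] at hj₀
    have e1 : c ≤ cw (fun u : Fin K → ℤ => if u i₀ = u j₀ then (0 : ℝ) else 1) k z := by
      rw [cw_ne]
      apply hU
      have f1 : (z i₀ : ℝ) ≤ p := by exact_mod_cast h1 i₀ hi₀.2
      have f2 : (q : ℝ) ≤ z j₀ := by exact_mod_cast h2 j₀ hj₀.2
      push_cast
      exact le_trans (by linarith) (le_abs_self _)
    refine e1.trans (cw_ord k z (fun u hu => ?_))
    by_cases hne : u i₀ = u j₀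
    · rw [if_pos hne]
      split_ifs <;> norm_num
    · rw [if_neg hne, if_pos]
      intro i j hi hj hij
      apply hne
      have g1 : u i ≤ u i₀ := hu _ _ (him i (by rw [hA, mem_filter]; exact ⟨mem_univ _, hi⟩))
      have g2 : u j₀ ≤ u j := hu _ _ (hjm j (by rw [hB, mem_filter]; exact ⟨mem_univ _, hj⟩))
      have g3 : u i₀ ≤ u j₀ := hu _ _ (((h1 i₀ hi₀.2).trans hpq).trans (h2 j₀ hj₀.2))
      omega
  · have e : (fun u : Fin K → ℤ => if Sep a u then (1 : ℝ) else 0) = fun _ => 1 := by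
      funext u
      rw [if_pos]
      intro i j hi hj
      exfalso
      apply hAB
      exact ⟨⟨i, by rw [hA, mem_filter]; exact ⟨mem_univ _, hi⟩⟩, ⟨j, by rw [hB, mem_filter]; exact ⟨mem_univ _, hj⟩⟩⟩
    rw [e, (isE_cw k z).one]
    exact hc1

/-- independent walks -/
theorem iw_prod (φ : Fin K → ℤ → ℝ) (s : ℕ) : ∀ z : Fin K → ℤ,
    iw (fun u => ∏ i, φ i (u i)) s z = ∏ i, sw (φ i) s (z i) := by
  induction s with
  | zero => intro z; rfl
  | succ s ih =>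
    intro z
    rw [iw_succ, sum_congr rfl (fun p _ => ih _)]
    have h := Finset.prod_univ_sum (fun _ : Fin K => (univ : Finset (Fin 2)))
      (fun i (e : Fin 2) => sw (φ i) s (z i + ((e : ℕ) : ℤ)))
    rw [Fintype.piFinset_univ] at h
    rw [← h]
    have e : ∀ i : Fin K, sw (φ i) (s + 1) (z i) = (∑ e : Fin 2, sw (φ i) s (z i + ((e : ℕ) : ℤ))) / 2 := by
      intro i
      rw [Fin.sum_univ_two]
      simp only [sw, Fin.val_zero, Fin.val_one, Nat.cast_zero, add_zero, Nat.cast_one]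
    rw [prod_congr rfl (fun i _ => e i), prod_div_distrib, prod_const, card_univ, Fintype.card_fin]

/-- one walk is far from the mean, the others are weighted -/
theorem tilt (φ : Fin K → ℤ → ℝ) (τ : ℤ → ℝ) (h0 : ∀ i v, 0 ≤ φ i v) (h1 : ∀ i v, φ i v ≤ 1) (t0 : ∀ v, 0 ≤ τ v)
    {s : ℕ} {ξ T : ℝ} (hξ : ∀ i, ξ ≤ sw (φ i) s 0) (hξ0 : 0 ≤ ξ) (hT : sw τ s 0 ≤ T) (i : Fin K) :
    ξ * iw (fun u => (∏ j, φ j (u j)) * τ (u i)) s (fun _ => 0) ≤ T * iw (fun u => ∏ j, φ j (u j)) s (fun _ => 0) := by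
  have hT0 : 0 ≤ T := (sw_nonneg t0 s 0).trans hT
  obtain ⟨ψ, hψ⟩ : ∃ ψ : Fin K → ℤ → ℝ, ψ = fun j v => if j = i then φ j v * τ v else φ j v := ⟨_, rfl⟩
  have p1 : ∀ v, ψ i v = φ i v * τ v := by intro v; rw [hψ]; simp only [if_true]
  have p2 : ∀ x ∈ univ.erase i, ψ x = φ x := by
    intro x hx
    rw [hψ]
    funext v
    simp only [if_neg (ne_of_mem_erase hx)]
  have e1 : (fun u : Fin K → ℤ => (∏ j, φ j (u j)) * τ (u i)) = fun u => ∏ j, ψ j (u j) := by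
    funext u
    rw [← mul_prod_erase univ (fun j => φ j (u j)) (mem_univ i), ← mul_prod_erase univ (fun j => ψ j (u j)) (mem_univ i)]
    have e2 : ∏ x ∈ univ.erase i, ψ x (u x) = ∏ x ∈ univ.erase i, φ x (u x) :=
      prod_congr rfl fun x hx => by rw [p2 x hx]
    rw [e2, p1]
    ring
  rw [e1, iw_prod, iw_prod, ← mul_prod_erase univ (fun j => sw (ψ j) s 0) (mem_univ i),
    ← mul_prod_erase univ (fun j => sw (φ j) s 0) (mem_univ i)]
  have e3 : ∏ x ∈ univ.erase i, sw (ψ x) s 0 = ∏ x ∈ univ.erase i, sw (φ x) s 0 :=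
    prod_congr rfl fun x hx => by rw [p2 x hx]
  have e4 : sw (ψ i) s 0 ≤ T := by
    refine (sw_mono (fun v => ?_) s 0).trans hT
    rw [p1]
    exact mul_le_of_le_one_left (t0 v) (h1 i v)
  have e5 : 0 ≤ ∏ x ∈ univ.erase i, sw (φ x) s 0 := prod_nonneg fun x _ => sw_nonneg (h0 x) s 0
  have e6 : 0 ≤ sw (ψ i) s 0 := sw_nonneg (fun v => by rw [p1]; exact mul_nonneg (h0 i v) (t0 v)) s 0
  rw [e3]
  calc ξ * (sw (ψ i) s 0 * ∏ x ∈ univ.erase i, sw (φ x) s 0)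
      ≤ sw (φ i) s 0 * (T * ∏ x ∈ univ.erase i, sw (φ x) s 0) := by
        apply mul_le_mul (hξ i) (mul_le_mul_of_nonneg_right e4 e5) (mul_nonneg e6 e5) (hξ0.trans (hξ i))
    _ = T * (sw (φ i) s 0 * ∏ x ∈ univ.erase i, sw (φ x) s 0) := by ring

/-- the numbers -/
theorem num_small {γ ρ M : ℝ} (hγ : 0 < γ) (hρ : 0 < ρ) (hM0 : 0 < M) : ∃ K₀ : ℕ, ∀ K : ℕ, K₀ ≤ K → ∀ᶠ k : ℕ in atTop,
    ∃ h : ℕ, 1 ≤ h ∧ ∀ s : ℕ, (s : ℝ) ≤ ρ * k →
      (2 * M * √ (s : ℝ) / h + 2) + K * (γ / 8) + K * (3 * h / √ (k : ℝ)) ≤ γ * K := by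
  obtain ⟨Q, hQ⟩ : ∃ Q : ℝ, Q = 48 * M * √ρ / γ + 2 := ⟨_, rfl⟩
  have hQ0 : 0 ≤ Q := by rw [hQ]; positivity
  refine ⟨⌈2 * Q / γ⌉₊, fun K hK => ?_⟩
  have hKQ : Q ≤ γ / 2 * K := by
    have h1 : 2 * Q / γ ≤ K := (Nat.le_ceil _).trans (by exact_mod_cast hK)
    rw [div_le_iff₀ hγ] at h1
    linarith
  have hsq : Tendsto (fun t : ℕ => √ (t : ℝ)) atTop atTop := Real.tendsto_sqrt_atTop.comp tendsto_natCast_atTop_atTop
  filter_upwards [eventually_ge_atTop 1, hsq.eventually_ge_atTop (24 / γ)] with k hk hk2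
  have hk0 : (0 : ℝ) < k := by exact_mod_cast hk
  have hkq : 0 < √ (k : ℝ) := Real.sqrt_pos.2 hk0
  obtain ⟨h, hh⟩ : ∃ h : ℕ, h = ⌈γ / 24 * √ (k : ℝ)⌉₊ := ⟨_, rfl⟩
  have hh1 : 1 ≤ h := by rw [hh]; exact Nat.one_le_ceil_iff.2 (by positivity)
  have hhl : γ / 24 * √ (k : ℝ) ≤ h := by rw [hh]; exact Nat.le_ceil _
  have hhu : (h : ℝ) ≤ γ / 24 * √ (k : ℝ) + 1 := by
    rw [hh]; exact (Nat.ceil_lt_add_one (by positivity)).le
  have hh0 : (0 : ℝ) < h := by exact_mod_cast hh1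
  refine ⟨h, hh1, fun s hsk => ?_⟩
  have e1 : 2 * M * √ (s : ℝ) / h ≤ 48 * M * √ρ / γ := by
    rw [div_le_div_iff₀ hh0 hγ]
    have h1 : √ (s : ℝ) ≤ √ρ * √ (k : ℝ) := by
      rw [← Real.sqrt_mul hρ.le]
      exact Real.sqrt_le_sqrt hsk
    calc 2 * M * √ (s : ℝ) * γ ≤ 2 * M * (√ρ * √ (k : ℝ)) * γ := by gcongr
      _ = 48 * M * √ρ * (γ / 24 * √ (k : ℝ)) := by ring
      _ ≤ 48 * M * √ρ * h := mul_le_mul_of_nonneg_left hhl (by positivity)
  have e2 : 3 * (h : ℝ) / √ (k : ℝ) ≤ γ / 4 := by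
    rw [div_le_iff₀ hkq]
    rw [div_le_iff₀ hγ] at hk2
    linarith
  have e3 : (K : ℝ) * (3 * h / √ (k : ℝ)) ≤ K * (γ / 4) := mul_le_mul_of_nonneg_left e2 (by positivity)
  have hK0 : (0 : ℝ) ≤ K := by positivity
  nlinarith

/-- few clusters, with weights -/
theorem nc_tilt (φ : Fin K → ℤ → ℝ) (h0 : ∀ i v, 0 ≤ φ i v) (h1 : ∀ i v, φ i v ≤ 1)
    {k h s : ℕ} (hk : 1 ≤ k) (hh : 1 ≤ h) (hs : 1 ≤ s) {M ξ : ℝ} (hM : 0 < M) (hξ : ∀ i, ξ ≤ sw (φ i) s 0) (hξ0 : 0 < ξ) :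
    iw (fun z : Fin K → ℤ => (∏ i, φ i (z i)) * cw (fun u : Fin K → ℤ => (nc u : ℝ)) k z) s (fun _ => 0) ≤
      ((2 * M * √ (s : ℝ) / h + 2) + K * (1 / (4 * M ^ 2) / ξ) + K * (3 * h / √ (k : ℝ))) *
        iw (fun z : Fin K → ℤ => ∏ i, φ i (z i)) s (fun _ => 0) := by
  have hE := isE_iw (k := K) s (fun _ => 0)
  have hA0 : ∀ z : Fin K → ℤ, 0 ≤ ∏ i, φ i (z i) := fun z => prod_nonneg fun i _ => h0 i _
  obtain ⟨τ, hτ⟩ : ∃ τ : ℤ → ℝ, τ = fun v : ℤ => if 2 * M * √ (s : ℝ) ≤ |2 * (v : ℝ) - s| then (1 : ℝ) else 0 := ⟨_, rfl⟩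
  have ht0 : ∀ v, 0 ≤ τ v := by intro v; rw [hτ]; simp only; split_ifs <;> norm_num
  have hT : sw τ s 0 ≤ 1 / (4 * M ^ 2) := by
    have e1 := tail_iw (K := 1) 0 hs hM
    have e2 := iw_single (k := 1) τ s (fun _ => 0) 0
    rw [← e2, hτ]
    exact e1
  have hpt : ∀ z : Fin K → ℤ, (∏ i, φ i (z i)) * cw (fun u : Fin K → ℤ => (nc u : ℝ)) k z ≤
      ((2 * M * √ (s : ℝ) / h + 2) + K * (3 * h / √ (k : ℝ))) * (∏ i, φ i (z i)) + ∑ i, (∏ j, φ j (z j)) * τ (z i) := by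
    intro z
    have f1 := cw_nc hk hh z
    have f2 := cells_le (s := s) hh hM z
    have f3 : cw (fun u : Fin K → ℤ => (nc u : ℝ)) k z ≤
        (2 * M * √ (s : ℝ) / h + 2) + K * (3 * h / √ (k : ℝ)) + ∑ i, τ (z i) := by
      rw [hτ]
      linarith
    have f4 := mul_le_mul_of_nonneg_left f3 (hA0 z)
    rw [← mul_sum]
    linarith
  refine (hE.mono _ _ hpt).trans ?_
  rw [hE.add, hE.smul, hE.sum]
  have f5 : ∀ i ∈ (univ : Finset (Fin K)), iw (fun z : Fin K → ℤ => (∏ j, φ j (z j)) * τ (z i)) s (fun _ => 0) ≤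
      1 / (4 * M ^ 2) / ξ * iw (fun z : Fin K → ℤ => ∏ i, φ i (z i)) s (fun _ => 0) := by
    intro i _
    have f6 := tilt φ τ h0 h1 ht0 hξ hξ0.le hT i
    rw [div_mul_eq_mul_div, le_div_iff₀ hξ0]
    linarith
  have f7 := sum_le_sum f5
  rw [sum_const, card_univ, Fintype.card_fin, nsmul_eq_mul] at f7
  linarith

open Classical in
/-- the weight from below -/
theorem sepW_low {a : ℕ} {δ l : ℝ} (hδ0 : 0 < δ) (hl : l = -Real.log δ) (hl0 : 0 ≤ l) (b : ℝ) (u : Fin K → ℤ) :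
    Real.exp (-(l * b)) * (1 + l * b) * (if Sep a u then (1 : ℝ) else 0) + (-(Real.exp (-(l * b)) * l)) * (nc u : ℝ) ≤
      sepW a δ u := by
  unfold sepW
  by_cases hS : Sep a u
  · rw [if_pos hS, if_pos hS, mul_one]
    have h1 : δ ^ nc u = Real.exp (-(l * nc u)) := by
      have h0 : δ = Real.exp (Real.log δ) := (Real.exp_log hδ0).symm
      calc δ ^ nc u = Real.exp (Real.log δ) ^ nc u := by rw [← h0]
        _ = Real.exp (-(l * nc u)) := by
          rw [← Real.exp_nat_mul, hl]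
          congr 1; ring
    rw [h1]
    have h2 := Real.add_one_le_exp (l * b - l * nc u)
    have h3 : Real.exp (-(l * nc u)) = Real.exp (-(l * b)) * Real.exp (l * b - l * nc u) := by
      rw [← Real.exp_add]; congr 1; ring
    rw [h3]
    calc Real.exp (-(l * b)) * (1 + l * b) + (-(Real.exp (-(l * b)) * l)) * (nc u : ℝ) =
          Real.exp (-(l * b)) * (l * b - l * nc u + 1) := by ring
      _ ≤ _ := mul_le_mul_of_nonneg_left h2 (Real.exp_pos _).le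
  · rw [if_neg hS, if_neg hS, mul_zero, zero_add]
    have : 0 ≤ Real.exp (-(l * b)) * l * (nc u : ℝ) := by positivity
    linarith

/-- the weight is nonnegative -/
theorem sepW_nonneg {a : ℕ} {δ : ℝ} (hδ0 : 0 < δ) (u : Fin K → ℤ) : 0 ≤ sepW a δ u := by
  unfold sepW
  split_ifs
  · positivity
  · exact le_rfl

/-- the bound for fixed parameters -/
theorem asm {a b' : ℕ} {k h s : ℕ} (hk : 1 ≤ k) (hh : 1 ≤ h) (hs : 1 ≤ s) {δ l c γ M ξ L : ℝ} (hδ0 : 0 < δ)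
    (hl : l = -Real.log δ) (hl0 : 0 ≤ l) (hc0 : 0 < c) (hc1 : c ≤ 1) (hM : 0 < M) (hξ0 : 0 < ξ) (hγ0 : 0 ≤ γ)
    (hU : ∀ d : ℤ, L ≤ |(d : ℝ)| → c ≤ U (2 * k) (2 * d)) (p q : ℤ) (hL : L ≤ (q : ℝ) - p) (hpq : p ≤ q)
    (hp : ξ ≤ sw (le1 p) s 0) (hq : ξ ≤ sw (ge1 q) s 0)
    (hn : (2 * M * √ (s : ℝ) / h + 2) + ((a + b' : ℕ) : ℝ) * (1 / (4 * M ^ 2) / ξ) + ((a + b' : ℕ) : ℝ) * (3 * h / √ (k : ℝ)) ≤
      γ * ((a + b' : ℕ) : ℝ)) :
    Real.exp (-(l * (γ * ((a + b' : ℕ) : ℝ) / c))) * c * (sw (le1 p) s 0 ^ a * sw (ge1 q) s 0 ^ b') ≤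
      iw (cw (sepW a δ : (Fin (a + b') → ℤ) → ℝ) k) s (fun _ => 0) := by
  classical
  obtain ⟨φ, hφ⟩ : ∃ φ : Fin (a + b') → ℤ → ℝ, φ = fun i : Fin (a + b') => if (i : ℕ) < a then le1 p else ge1 q := ⟨_, rfl⟩
  have h0 : ∀ i v, 0 ≤ φ i v := by
    intro i v
    rw [hφ]
    simp only
    split_ifs
    · unfold le1; split_ifs <;> norm_num
    · unfold ge1; split_ifs <;> norm_num
  have h1 : ∀ i v, φ i v ≤ 1 := by
    intro i v
    rw [hφ]
    simp only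
    split_ifs
    · unfold le1; split_ifs <;> norm_num
    · unfold ge1; split_ifs <;> norm_num
  have hξ : ∀ i, ξ ≤ sw (φ i) s 0 := by
    intro i
    rw [hφ]
    simp only
    split_ifs
    · exact hp
    · exact hq
  have hiwA : iw (fun z : Fin (a + b') → ℤ => ∏ i, φ i (z i)) s (fun _ => 0) = sw (le1 p) s 0 ^ a * sw (ge1 q) s 0 ^ b' := by
    rw [iw_prod, Fin.prod_univ_add]
    congr 1
    · rw [prod_congr rfl (g := fun _ => sw (le1 p) s 0), prod_const, card_univ, Fintype.card_fin]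
      intro i _
      rw [hφ]
      simp only [Fin.val_castAdd, i.isLt, if_true]
    · rw [prod_congr rfl (g := fun _ => sw (ge1 q) s 0), prod_const, card_univ, Fintype.card_fin]
      intro i _
      rw [hφ]
      simp only [Fin.val_natAdd]
      rw [if_neg (by omega)]
  have hE := isE_iw (k := a + b') s (fun _ => 0)
  obtain ⟨β, hβ⟩ : ∃ β : ℝ, β = γ * ((a + b' : ℕ) : ℝ) / c := ⟨_, rfl⟩
  have hβ0 : 0 ≤ β := by rw [hβ]; positivity
  have hβc : β * c = γ * ((a + b' : ℕ) : ℝ) := by rw [hβ]; field_simp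
  rw [← hβ, ← hiwA]
  have hpt : ∀ z : Fin (a + b') → ℤ, (Real.exp (-(l * β)) * ((1 + l * β) * c)) * (∏ i, φ i (z i)) +
      (-(Real.exp (-(l * β)) * l)) * ((∏ i, φ i (z i)) * cw (fun u : Fin (a + b') → ℤ => (nc u : ℝ)) k z) ≤
      cw (sepW a δ : (Fin (a + b') → ℤ) → ℝ) k z := by
    intro z
    by_cases hz : ∀ i, φ i (z i) ≠ 0
    · have hz1 : ∀ i : Fin (a + b'), (i : ℕ) < a → z i ≤ p := by
        intro i hi
        by_contra hcon
        apply hz i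
        rw [hφ]
        simp only [hi, if_true]
        unfold le1
        rw [if_neg hcon]
      have hz2 : ∀ i : Fin (a + b'), a ≤ (i : ℕ) → q ≤ z i := by
        intro i hi
        by_contra hcon
        apply hz i
        rw [hφ]
        simp only
        rw [if_neg (by omega)]
        unfold ge1
        rw [if_neg hcon]
      have hz3 : ∏ i, φ i (z i) = 1 := by
        apply prod_eq_one
        intro i _
        rw [hφ]
        simp only
        split_ifs with hi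
        · unfold le1; rw [if_pos (hz1 i hi)]
        · unfold ge1; rw [if_pos (hz2 i (by omega))]
      rw [hz3, mul_one, one_mul]
      have e1 := sep_prob (K := a + b') hc1 hU z p q hL hpq hz1 hz2
      have e2 := (isE_cw k z).mono _ _ (fun u => sepW_low (a := a) hδ0 hl hl0 β u)
      rw [(isE_cw k z).add, (isE_cw k z).smul, (isE_cw k z).smul] at e2
      refine le_trans ?_ e2
      have e3 : 0 ≤ Real.exp (-(l * β)) * (1 + l * β) := by positivity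
      have e4 := mul_le_mul_of_nonneg_left e1 e3
      linarith
    · push Not at hz
      obtain ⟨i, hi⟩ := hz
      rw [prod_eq_zero (mem_univ i) hi, mul_zero, zero_mul, mul_zero, add_zero]
      exact (isE_cw k z).nonneg (fun u => sepW_nonneg hδ0 u)
  have e5 := hE.mono _ _ hpt
  rw [hE.add, hE.smul, hE.smul] at e5
  refine le_trans ?_ e5
  have e6 := nc_tilt φ h0 h1 hk hh hs hM hξ hξ0
  have hA0 : 0 ≤ iw (fun z : Fin (a + b') → ℤ => ∏ i, φ i (z i)) s (fun _ => 0) :=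
    hE.nonneg (fun z => prod_nonneg fun i _ => h0 i _)
  have e7 : iw (fun z : Fin (a + b') → ℤ => (∏ i, φ i (z i)) * cw (fun u : Fin (a + b') → ℤ => (nc u : ℝ)) k z) s (fun _ => 0) ≤
      β * c * iw (fun z : Fin (a + b') → ℤ => ∏ i, φ i (z i)) s (fun _ => 0) := by
    rw [hβc]
    exact e6.trans (mul_le_mul_of_nonneg_right hn hA0)
  have e8 : 0 ≤ Real.exp (-(l * β)) * l := by positivity
  have e9 := mul_le_mul_of_nonneg_left e7 e8
  linarith

/-- (P5) -/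
theorem t_SUPW : S_UL → S_QNT → S_SUPW := by
  intro hUL hQ δ ρ ρ' x κ hδ0 hδ1 hρ' hρ hx0 hx1 hκ0 hκ1
  obtain ⟨l, hl⟩ : ∃ l : ℝ, l = -Real.log δ := ⟨_, rfl⟩
  have hl0 : 0 ≤ l := by rw [hl]; have := Real.log_nonpos hδ0.le hδ1; linarith
  obtain ⟨r, hr⟩ : ∃ r : ℝ, r = √κ := ⟨_, rfl⟩
  have hr0 : 0 < r := by rw [hr]; exact Real.sqrt_pos.2 hκ0
  have hr1 : r < 1 := by rw [hr]; exact (Real.sqrt_lt' one_pos).2 (by linarith)
  have hrκ : r * r = κ := by rw [hr]; exact Real.mul_self_sqrt hκ0.le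
  obtain ⟨η, hη⟩ : ∃ η : ℝ, η = (1 - r) * min x (1 - x) := ⟨_, rfl⟩
  have hmin : 0 < min x (1 - x) := lt_min hx0 (by linarith)
  have hη0 : 0 < η := by rw [hη]; exact mul_pos (by linarith) hmin
  have hx2 : r * x ≤ x - η := by
    have : (1 - r) * min x (1 - x) ≤ (1 - r) * x := mul_le_mul_of_nonneg_left (min_le_left _ _) (by linarith)
    rw [hη]; linarith
  have hx3 : r * (1 - x) ≤ 1 - x - η := by
    have : (1 - r) * min x (1 - x) ≤ (1 - r) * (1 - x) := mul_le_mul_of_nonneg_left (min_le_right _ _) (by linarith)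
    rw [hη]; linarith
  obtain ⟨ξ, hξ⟩ : ∃ ξ : ℝ, ξ = r * min x (1 - x) := ⟨_, rfl⟩
  have hξ0 : 0 < ξ := by rw [hξ]; positivity
  have hξ1 : ξ ≤ x - η := by
    rw [hξ]
    exact (mul_le_mul_of_nonneg_left (min_le_left _ _) hr0.le).trans hx2
  have hξ2 : ξ ≤ 1 - x - η := by
    rw [hξ]
    exact (mul_le_mul_of_nonneg_left (min_le_right _ _) hr0.le).trans hx3
  obtain ⟨g, hg, hqn⟩ := hQ x η hx0 hx1 hη0
  have hsρ : 0 < √ρ' := Real.sqrt_pos.2 hρ'
  obtain ⟨c₁, hc₁, hu⟩ := hUL (g * √ρ') (by positivity)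
  obtain ⟨c, hc⟩ : ∃ c : ℝ, c = min c₁ 1 := ⟨_, rfl⟩
  have hc0 : 0 < c := by rw [hc]; exact lt_min hc₁ one_pos
  have hc1 : c ≤ 1 := by rw [hc]; exact min_le_right _ _
  have hcc : c ≤ c₁ := by rw [hc]; exact min_le_left _ _
  obtain ⟨w, hw⟩ : ∃ w : ℝ, w = -Real.log r := ⟨_, rfl⟩
  have hw0 : 0 < w := by rw [hw]; have := Real.log_neg hr0 hr1; linarith
  obtain ⟨γ, hγ⟩ : ∃ γ : ℝ, γ = w * c / (2 * (l + 1)) := ⟨_, rfl⟩
  have hγ0 : 0 < γ := by rw [hγ]; positivity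
  have hlγ : l * (γ / c) ≤ w / 2 := by
    have e : γ / c = w / (2 * (l + 1)) := by rw [hγ]; field_simp
    rw [e, ← mul_div_assoc, div_le_div_iff₀ (by positivity) (by norm_num)]
    nlinarith
  obtain ⟨M, hM⟩ : ∃ M : ℝ, M = √ (2 / (γ * ξ)) := ⟨_, rfl⟩
  have hM0 : 0 < M := by rw [hM]; exact Real.sqrt_pos.2 (by positivity)
  have hM2 : M ^ 2 = 2 / (γ * ξ) := by rw [hM]; exact Real.sq_sqrt (by positivity)
  have hMγ : 1 / (4 * M ^ 2) / ξ = γ / 8 := by rw [hM2]; field_simp; norm_num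
  obtain ⟨K₁, hK₁⟩ := num_small (ρ := ρ) hγ0 hρ hM0
  refine ⟨max K₁ ⌈4 / (w * c)⌉₊, fun a b hab => ?_⟩
  obtain ⟨s₀, hs₀⟩ := eventually_atTop.1 hqn
  have hks : Tendsto (fun k : ℕ => ρ' * (k : ℝ)) atTop atTop :=
    Tendsto.const_mul_atTop hρ' tendsto_natCast_atTop_atTop
  filter_upwards [hK₁ (a + b) ((le_max_left _ _).trans hab), hu, eventually_ge_atTop 1,
    hks.eventually_ge_atTop (s₀ + 1 : ℝ)] with k hk1 hk2 hk3 hk4
  intro s hs1 hs2
  obtain ⟨h, hh, hn⟩ := hk1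
  have hs3 : (s₀ : ℝ) + 1 ≤ s := hk4.trans hs1
  have hs4 : s₀ + 1 ≤ s := by exact_mod_cast hs3
  obtain ⟨p, q, hpq, hp, hq⟩ := hs₀ s (by omega)
  have hgs : g * √ρ' * √ (k : ℝ) ≤ g * √ (s : ℝ) := by
    rw [mul_assoc, ← Real.sqrt_mul hρ'.le]
    exact mul_le_mul_of_nonneg_left (Real.sqrt_le_sqrt hs1) hg.le
  have hpq2 : p ≤ q := by
    have : 0 ≤ g * √ (s : ℝ) := by positivity
    have h2 : (p : ℝ) ≤ q := by linarith
    exact_mod_cast h2
  have hn2 := hn s hs2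
  rw [← hMγ] at hn2
  have key := asm (a := a) (b' := b) (δ := δ) (l := l) (c := c) (γ := γ) (M := M) (ξ := ξ) (L := g * √ρ' * √ (k : ℝ)) hk3 hh
    (by omega : 1 ≤ s) hδ0 hl hl0 hc0 hc1 hM0 hξ0 hγ0.le (fun d hd => hcc.trans (hk2 d hd)) p q (hgs.trans hpq) hpq2
    (hξ1.trans hp) (hξ2.trans hq) hn2
  refine le_trans ?_ key
  -- numbers
  obtain ⟨N, hN⟩ : ∃ N : ℝ, N = ((a + b : ℕ) : ℝ) := ⟨_, rfl⟩
  have hN0 : 0 ≤ N := by rw [hN]; positivity
  have hNK : 2 / c ≤ w * N / 2 := by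
    have h1 : 4 / (w * c) ≤ N := by
      rw [hN]
      exact (Nat.le_ceil _).trans (by exact_mod_cast (le_max_right _ _).trans hab)
    rw [div_le_iff₀ (by positivity)] at h1
    rw [div_le_iff₀ hc0]
    linarith
  have hrN : r ^ (a + b) = Real.exp (-(w * N)) := by
    have h0 : r = Real.exp (Real.log r) := (Real.exp_log hr0).symm
    calc r ^ (a + b) = Real.exp (Real.log r) ^ (a + b) := by rw [← h0]
      _ = Real.exp (-(w * N)) := by
        rw [← Real.exp_nat_mul, hw, hN]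
        congr 1; ring
  have h2r : 2 * r ^ (a + b) ≤ Real.exp (-(l * (γ * ((a + b : ℕ) : ℝ) / c))) * c := by
    rw [hrN, ← hN]
    have f1 : l * (γ * N / c) ≤ w * N / 2 := by
      have := mul_le_mul_of_nonneg_right hlγ hN0
      calc l * (γ * N / c) = l * (γ / c) * N := by ring
        _ ≤ w / 2 * N := this
        _ = w * N / 2 := by ring
    have f2 : Real.exp (-(w * N / 2)) ≤ Real.exp (-(l * (γ * N / c))) := Real.exp_le_exp.2 (by linarith)
    have f3 : 2 / c ≤ Real.exp (w * N / 2) := by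
      have := Real.add_one_le_exp (w * N / 2)
      linarith
    have f4 : 2 ≤ c * Real.exp (w * N / 2) := by
      rw [div_le_iff₀ hc0] at f3
      linarith
    calc 2 * Real.exp (-(w * N)) ≤ c * Real.exp (w * N / 2) * Real.exp (-(w * N)) :=
          mul_le_mul_of_nonneg_right f4 (Real.exp_pos _).le
      _ = c * Real.exp (-(w * N / 2)) := by
          rw [mul_assoc, ← Real.exp_add]
          congr 2; ring
      _ ≤ c * Real.exp (-(l * (γ * N / c))) := mul_le_mul_of_nonneg_left f2 hc0.le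
      _ = _ := by ring
  have hmass : r ^ (a + b) * (x ^ a * (1 - x) ^ b) ≤ sw (le1 p) s 0 ^ a * sw (ge1 q) s 0 ^ b := by
    have g1 : (r * x) ^ a ≤ sw (le1 p) s 0 ^ a := pow_le_pow_left₀ (by positivity) (hx2.trans hp) a
    have g2 : (r * (1 - x)) ^ b ≤ sw (ge1 q) s 0 ^ b :=
      pow_le_pow_left₀ (mul_nonneg hr0.le (by linarith)) (hx3.trans hq) b
    calc r ^ (a + b) * (x ^ a * (1 - x) ^ b) = (r * x) ^ a * (r * (1 - x)) ^ b := by
          rw [mul_pow, mul_pow, pow_add]; ring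
      _ ≤ _ := mul_le_mul g1 g2 (pow_nonneg (mul_nonneg hr0.le (by linarith)) _) (by
          exact (pow_nonneg (mul_nonneg hr0.le hx0.le) a).trans g1)
  have hxx : 0 ≤ x ^ a * (1 - x) ^ b := mul_nonneg (pow_nonneg hx0.le _) (pow_nonneg (by linarith) _)
  calc 2 * κ ^ (a + b) * (x ^ a * (1 - x) ^ b) = (2 * r ^ (a + b)) * (r ^ (a + b) * (x ^ a * (1 - x) ^ b)) := by
        rw [← hrκ, mul_pow]; ring
    _ ≤ (Real.exp (-(l * (γ * ((a + b : ℕ) : ℝ) / c))) * c) * (sw (le1 p) s 0 ^ a * sw (ge1 q) s 0 ^ b) :=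
        mul_le_mul h2r hmass (mul_nonneg (pow_nonneg hr0.le _) hxx) (mul_nonneg (Real.exp_pos _).le hc0.le)

end Pool.Agent.J4H18.KP
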