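import Mathlib
import Pool.Agent.J4H26.KP.Noat
import Pool.Agent.J4H18.KP.Supw

set_option autoImplicit false

/-! Project KP, the law of the share has no atoms, (N1): many big clusters. -/

namespace Pool.Agent.J4H18.KP.Big

open Finset Filter Real
open Pool.Agent.J4H39 (U)
open Pool.Agent.J4H39.KP (cw_ne cw_ne_le)
open Pool.Agent.J4H26.KP
open Pool.Agent.J4H26.KT (iw cw sw isE_cw isE_iw sw_add sw_smul sw_nonneg)
open Pool.Agent.J4H18.KP (cw_ord iw_prod)

variable {K : ℕ}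

theorem sw_cst (c : ℝ) (s : ℕ) : ∀ d : ℤ, sw (fun _ => c) s d = c := by
  induction s with
  | zero => intro d; rfl
  | succ s ih => intro d; simp only [sw]; rw [ih, ih]; ring

/-- the cells -/
theorem cells {h : ℕ} (hh : 1 ≤ h) (z : Fin K → ℤ) (G : Finset (Fin K)) {α β : ℝ} (hαβ : α ≤ β)
    (hG : ∀ i ∈ G, α ≤ z i ∧ (z i : ℝ) ≤ β) : (#(G.image fun i => z i / (h : ℤ)) : ℝ) ≤ (β - α) / h + 2 := by
  have hh0 : (0 : ℝ) < h := by exact_mod_cast hh
  have hh0z : (0 : ℤ) < h := by exact_mod_cast hh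
  have hsub : G.image (fun i => z i / (h : ℤ)) ⊆ Finset.Icc ⌊α / h⌋ ⌊β / h⌋ := by
    intro x hx
    obtain ⟨i, hi, rfl⟩ := mem_image.1 hx
    rw [mem_Icc]
    obtain ⟨h1, h2⟩ := hG i hi
    constructor
    · rw [Int.le_ediv_iff_mul_le hh0z]
      have h3 : (⌊α / h⌋ : ℝ) * h ≤ α / h * h := mul_le_mul_of_nonneg_right (Int.floor_le _) hh0.le
      rw [div_mul_cancel₀ _ hh0.ne'] at h3
      have h4 : ((⌊α / h⌋ * (h : ℤ) : ℤ) : ℝ) ≤ (z i : ℝ) := by push_cast; linarith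
      exact_mod_cast h4
    · rw [← Int.lt_add_one_iff, Int.ediv_lt_iff_lt_mul hh0z]
      have h3 : β / h * h < ((⌊β / h⌋ : ℝ) + 1) * h := mul_lt_mul_of_pos_right (Int.lt_floor_add_one _) hh0
      rw [div_mul_cancel₀ _ hh0.ne'] at h3
      have h4 : (z i : ℝ) < (((⌊β / h⌋ + 1) * (h : ℤ) : ℤ) : ℝ) := by push_cast; linarith
      exact_mod_cast h4
  have h1 : (#(G.image fun i => z i / (h : ℤ)) : ℝ) ≤ (#(Finset.Icc ⌊α / h⌋ ⌊β / h⌋) : ℝ) := by exact_mod_cast card_le_card hsub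
  refine h1.trans ?_
  rw [Int.card_Icc]
  have h4 : ⌊α / h⌋ ≤ ⌊β / h⌋ := Int.floor_le_floor (div_le_div_of_nonneg_right hαβ hh0.le)
  have h5 : (((⌊β / h⌋ + 1 - ⌊α / h⌋).toNat : ℕ) : ℝ) = (⌊β / h⌋ : ℝ) + 1 - ⌊α / h⌋ := by
    have : (((⌊β / h⌋ + 1 - ⌊α / h⌋).toNat : ℕ) : ℤ) = ⌊β / h⌋ + 1 - ⌊α / h⌋ := Int.toNat_of_nonneg (by omega)
    exact_mod_cast this
  rw [h5]
  have h6 := Int.floor_le (β / h)
  have h7 := Int.lt_floor_add_one (α / h)
  have h8 : (β - α) / h = β / h - α / h := sub_div _ _ _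
  linarith

/-- a big cluster -/
theorem one_big {h : ℕ} (hh : 1 ≤ h) (z u : Fin K → ℤ) (rep : ℤ → Fin K) (S : Finset (Fin K)) {α β b n : ℝ} (hαβ : α ≤ β)
    (hS : ∀ i ∈ S, α ≤ z i ∧ (z i : ℝ) ≤ β) (hn : n + #(univ.filter fun i => ¬ u (rep (z i / (h : ℤ))) = u i) ≤ #S) (hn0 : 0 < n)
    (hb : ((β - α) / h + 2) * b ≤ n) (hb0 : 0 ≤ b) : ∃ B ∈ cz u, b ≤ #B ∧ ∃ i ∈ B, i ∈ S := by
  classical
  obtain ⟨G, hG⟩ : ∃ G : Finset (Fin K), G = S.filter fun i => u (rep (z i / (h : ℤ))) = u i := ⟨_, rfl⟩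
  have hGc : n ≤ #G := by
    have h1 : S ⊆ G ∪ univ.filter (fun i => ¬ u (rep (z i / (h : ℤ))) = u i) := by
      intro i hi
      by_cases h2 : u (rep (z i / (h : ℤ))) = u i
      · exact mem_union_left _ (by rw [hG, mem_filter]; exact ⟨hi, h2⟩)
      · exact mem_union_right _ (by rw [mem_filter]; exact ⟨mem_univ _, h2⟩)
    have h2 : #S ≤ #G + #(univ.filter (fun i => ¬ u (rep (z i / (h : ℤ))) = u i)) := (card_le_card h1).trans (card_union_le _ _)
    have h3 : (#S : ℝ) ≤ #G + #(univ.filter (fun i => ¬ u (rep (z i / (h : ℤ))) = u i)) := by exact_mod_cast h2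
    linarith
  have hGne : G.Nonempty := by
    rw [← card_pos]
    have : (0 : ℝ) < #G := hn0.trans_le hGc
    exact_mod_cast this
  have hT := cells hh z G hαβ (fun i hi => hS i (by rw [hG, mem_filter] at hi; exact hi.1))
  obtain ⟨t, ht, htc⟩ := exists_le_card_fiber_of_nsmul_le_card_of_maps_to (s := G) (t := G.image fun i => z i / (h : ℤ))
    (f := fun i => z i / (h : ℤ)) (b := b) (fun i hi => mem_image_of_mem _ hi) (hGne.image _) (by
      rw [nsmul_eq_mul]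
      exact (mul_le_mul_of_nonneg_right hT hb0).trans (hb.trans hGc))
  obtain ⟨i₀, hi₀, hi₀t⟩ := mem_image.1 ht
  have hi₀' := hi₀
  rw [hG, mem_filter] at hi₀'
  refine ⟨univ.filter fun l => u i₀ = u l, by unfold cz; exact mem_image_of_mem _ (mem_univ i₀), ?_, i₀, by simp, hi₀'.1⟩
  refine htc.trans ?_
  have hsub : G.filter (fun i => z i / (h : ℤ) = t) ⊆ univ.filter fun l => u i₀ = u l := by
    intro i hi
    rw [mem_filter] at hi
    rw [mem_filter]
    refine ⟨mem_univ _, ?_⟩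
    have h1 := hi.1
    rw [hG, mem_filter] at h1
    have h2 := hi₀'.2
    have h3 := h1.2
    have h4 : z i₀ / (h : ℤ) = t := hi₀t
    rw [h4] at h2
    rw [hi.2] at h3
    exact h2.symm.trans h3
  exact_mod_cast card_le_card hsub

theorem cz_eq {u : Fin K → ℤ} {B : Finset (Fin K)} (h : B ∈ cz u) {i j : Fin K} (hi : i ∈ B) (hj : j ∈ B) : u i = u j := by
  unfold cz at h
  rw [mem_image] at h
  obtain ⟨a, _, rfl⟩ := h
  rw [mem_filter] at hi hj
  exact hi.2.symm.trans hj.2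

open Classical in
theorem bigI_le (w : ℝ) (J : ℕ) (u : Fin K → ℤ) : 0 ≤ bigI w J u ∧ bigI w J u ≤ 1 := by
  unfold bigI
  split_ifs <;> norm_num

open Classical in
/-- pointwise -/
theorem pt {J : ℕ} {w c : ℝ} (hw : 0 ≤ w) (hc : 0 < c) (hK : 0 < K) {h : ℕ} (hh : 1 ≤ h) (z u : Fin K → ℤ)
    (ho : ∀ i j, z i ≤ z j → u i ≤ u j) (rep : ℤ → Fin K) (S : Fin J → Finset (Fin K)) (α β : Fin J → ℝ) {Q : ℝ}
    (hαβ : ∀ j, α j ≤ β j) (hQ : ∀ j, (β j - α j) / h + 2 ≤ Q) (hQw : Q * w ≤ c / 4)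
    (hS : ∀ j, ∀ i ∈ S j, α j ≤ z i ∧ (z i : ℝ) ≤ β j) (hS' : ∀ j, c / 2 * K ≤ #(S j)) (hjj : ∀ j j', j < j' → β j ≤ α j')
    (p q : Fin J → Fin K) (hp : ∀ j, p j ∈ S j ∧ ∀ i ∈ S j, z i ≤ z (p j)) (hq : ∀ j, q j ∈ S j ∧ ∀ i ∈ S j, z (q j) ≤ z i) :
    1 - bigI w J u ≤ 4 / (c * K) * (∑ i, if u (rep (z i / (h : ℤ))) = u i then (0 : ℝ) else 1) +
      ∑ j : Fin J, ∑ j' : Fin J, (if j < j' then 1 - (if u (p j) = u (q j') then (0 : ℝ) else 1) else 0) := by
  have hK0 : (0 : ℝ) < K := by exact_mod_cast hK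
  have hn : ∀ a b : Fin J, 0 ≤ (if a < b then 1 - (if u (p a) = u (q b) then (0 : ℝ) else 1) else 0) := by
    intro a b
    split_ifs <;> norm_num
  have hn2 : 0 ≤ ∑ j : Fin J, ∑ j' : Fin J, (if j < j' then 1 - (if u (p j) = u (q j') then (0 : ℝ) else 1) else 0) :=
    sum_nonneg fun a _ => sum_nonneg fun b _ => hn a b
  obtain ⟨X, hX⟩ : ∃ X : ℝ, X = ∑ i, if u (rep (z i / (h : ℤ))) = u i then (0 : ℝ) else 1 := ⟨_, rfl⟩
  have hX0 : 0 ≤ X := by
    rw [hX]
    exact sum_nonneg fun i _ => by split_ifs <;> norm_num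
  have hXc : ((#(univ.filter (fun i => ¬ u (rep (z i / (h : ℤ))) = u i)) : ℕ) : ℝ) = X := by
    rw [hX, card_filter]
    push_cast
    apply sum_congr rfl
    intro i _
    by_cases h : u (rep (z i / (h : ℤ))) = u i
    · rw [if_pos h, if_neg (not_not.2 h)]
    · rw [if_neg h, if_pos h]
  rw [← hX]
  have hb := bigI_le w J u
  by_cases hX1 : X ≤ c / 4 * K
  · by_cases hpq : ∃ j j' : Fin J, j < j' ∧ u (p j) = u (q j')
    · obtain ⟨j, j', hj, he⟩ := hpq
      have h2 : (1 : ℝ) ≤ ∑ j : Fin J, ∑ j' : Fin J,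
          (if j < j' then 1 - (if u (p j) = u (q j') then (0 : ℝ) else 1) else 0) := by
        calc (1 : ℝ) = (if j < j' then 1 - (if u (p j) = u (q j') then (0 : ℝ) else 1) else 0) := by
              rw [if_pos hj, if_pos he]; ring
          _ ≤ ∑ b : Fin J, (if j < b then 1 - (if u (p j) = u (q b) then (0 : ℝ) else 1) else 0) :=
              single_le_sum (f := fun b : Fin J => (if j < b then 1 - (if u (p j) = u (q b) then (0 : ℝ) else 1) else 0))
                (fun b _ => hn j b) (mem_univ j')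
          _ ≤ _ := single_le_sum (f := fun a : Fin J => ∑ b : Fin J,
                (if a < b then 1 - (if u (p a) = u (q b) then (0 : ℝ) else 1) else 0))
                (fun a _ => sum_nonneg fun b _ => hn a b) (mem_univ j)
      have h3 : 0 ≤ 4 / (c * K) * X := by positivity
      linarith
    · push Not at hpq
      have hB : ∀ j : Fin J, ∃ B ∈ cz u, w * K ≤ #B ∧ ∃ i ∈ B, i ∈ S j := by
        intro j
        refine one_big hh z u rep (S j) (hαβ j) (hS j) (n := c / 4 * K) ?_ (by positivity) ?_ (by positivity)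
        · rw [hXc]
          have := hS' j
          linarith
        · have h1 := mul_le_mul_of_nonneg_right (hQ j) (show 0 ≤ w * K by positivity)
          have h2 := mul_le_mul_of_nonneg_right hQw hK0.le
          linarith
      choose B hB1 hB2 I hI1 hI2 using hB
      have hlt : ∀ j j' : Fin J, j < j' → B j ≠ B j' := by
        intro j j' hj he
        apply hpq j j' hj
        have e1 : u (I j) = u (I j') := cz_eq (hB1 j) (hI1 j) (by rw [he]; exact hI1 j')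
        have e2 : u (I j) ≤ u (p j) := ho _ _ ((hp j).2 _ (hI2 j))
        have e3 : u (q j') ≤ u (I j') := ho _ _ ((hq j').2 _ (hI2 j'))
        have e4 : u (p j) ≤ u (q j') := by
          apply ho
          have h1 := (hS j _ (hp j).1).2
          have h2 := (hS j' _ (hq j').1).1
          have h3 := hjj j j' hj
          have h4 : (z (p j) : ℝ) ≤ z (q j') := by linarith
          exact_mod_cast h4
        omega
      have hinj : Function.Injective B := by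
        intro a b hab
        rcases lt_trichotomy a b with h2 | h2 | h2
        · exact absurd hab (hlt a b h2)
        · exact h2
        · exact absurd hab.symm (hlt b a h2)
      have hJ : J ≤ #((cz u).filter fun B => w * K ≤ (#B : ℝ)) := by
        calc J = #(univ.image B) := by rw [card_image_of_injective _ hinj, card_univ, Fintype.card_fin]
          _ ≤ _ := card_le_card (image_subset_iff.2 fun j _ => by rw [mem_filter]; exact ⟨hB1 j, hB2 j⟩)
      have h1 : bigI w J u = 1 := by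
        unfold bigI
        rw [if_pos hJ]
      have h3 : 0 ≤ 4 / (c * K) * X := by positivity
      linarith
  · push Not at hX1
    have h1 : 1 ≤ 4 / (c * K) * X := by
      rw [div_mul_eq_mul_div, le_div_iff₀ (by positivity)]
      linarith
    linarith

open Classical in
/-- many big clusters, if there are many starting points in all intervals -/
theorem cw_big {J : ℕ} {w c e : ℝ} (hw : 0 ≤ w) (hc : 0 < c) (hK : 0 < K) {h k : ℕ} (hh : 1 ≤ h) (hk : 1 ≤ k) (he : 0 ≤ e)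
    (z : Fin K → ℤ) (S : Fin J → Finset (Fin K)) (α β : Fin J → ℝ) {Q G : ℝ}
    (hαβ : ∀ j, α j ≤ β j) (hQ : ∀ j, (β j - α j) / h + 2 ≤ Q) (hQw : Q * w ≤ c / 4)
    (hS : ∀ j, ∀ i ∈ S j, α j ≤ z i ∧ (z i : ℝ) ≤ β j) (hS' : ∀ j, c / 2 * K ≤ #(S j)) (hG : 0 ≤ G)
    (hjj : ∀ j j', j < j' → β j + G ≤ α j') (hU : ∀ d : ℤ, G ≤ |(d : ℝ)| → 1 - e ≤ U (2 * k) (2 * d)) :
    1 - (12 * h / (c * √(k : ℝ)) + (J : ℝ) ^ 2 * e) ≤ cw (bigI w J) k z := by
  have hK0 : (0 : ℝ) < K := by exact_mod_cast hK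
  have hk0 : (0 : ℝ) < √(k : ℝ) := Real.sqrt_pos.2 (by exact_mod_cast hk)
  have hex : ∀ v : ℤ, ∃ i : Fin K, v ∈ univ.image (fun i => z i / (h : ℤ)) → z i / (h : ℤ) = v := by
    intro v
    by_cases hv : v ∈ univ.image (fun i => z i / (h : ℤ))
    · obtain ⟨i, _, hi⟩ := mem_image.1 hv
      exact ⟨i, fun _ => hi⟩
    · exact ⟨⟨0, hK⟩, fun h => absurd h hv⟩
  choose rep hrep using hex
  have hSne : ∀ j, (S j).Nonempty := by
    intro j
    rw [← card_pos]
    have : (0 : ℝ) < #(S j) := lt_of_lt_of_le (by positivity) (hS' j)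
    exact_mod_cast this
  have hpe : ∀ j, ∃ p, p ∈ S j ∧ ∀ i ∈ S j, z i ≤ z p := fun j => exists_max_image (S j) z (hSne j)
  have hqe : ∀ j, ∃ q, q ∈ S j ∧ ∀ i ∈ S j, z q ≤ z i := fun j => exists_min_image (S j) z (hSne j)
  choose p hp using hpe
  choose q hq using hqe
  have hE := isE_cw k z
  have h1 : cw (fun u => 1 - bigI w J u) k z ≤ cw (fun u => 4 / (c * K) * (∑ i, if u (rep (z i / (h : ℤ))) = u i then (0 : ℝ) else 1) +
      ∑ j : Fin J, ∑ j' : Fin J, (if j < j' then 1 - (if u (p j) = u (q j') then (0 : ℝ) else 1) else 0)) k z :=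
    cw_ord k z fun u hu => pt hw hc hK hh z u hu rep S α β hαβ hQ hQw hS hS' (fun j j' hj => by linarith [hjj j j' hj]) p q hp hq
  have h2 : cw (fun u => 1 - bigI w J u) k z = 1 - cw (bigI w J) k z := by
    have e2 : (fun u : Fin K → ℤ => 1 - bigI w J u) = fun u => (1 : ℝ) + (-1) * bigI w J u := by
      funext u
      ring
    rw [e2, hE.add, hE.smul, hE.one]
    ring
  rw [h2, hE.add, hE.smul, hE.sum, hE.sum] at h1
  have h3 : ∀ i ∈ (univ : Finset (Fin K)), cw (fun u => if u (rep (z i / (h : ℤ))) = u i then (0 : ℝ) else 1) k z ≤ 3 * h / √(k : ℝ) := by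
    intro i _
    refine (cw_ne_le (rep (z i / (h : ℤ))) i hk z).trans ?_
    apply div_le_div_of_nonneg_right _ (Real.sqrt_nonneg _)
    have h4 := Pool.Agent.J4H26.KT.cell_close hh (hrep (z i / (h : ℤ)) (mem_image_of_mem _ (mem_univ i)))
    have h5 : |((z i - z (rep (z i / (h : ℤ))) : ℤ) : ℝ)| ≤ h := by
      rw [abs_sub_comm] at h4
      exact_mod_cast h4
    linarith
  have h4 := sum_le_sum h3
  rw [sum_const, card_univ, Fintype.card_fin, nsmul_eq_mul] at h4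
  have h5 : 4 / (c * K) * ∑ i, cw (fun u => if u (rep (z i / (h : ℤ))) = u i then (0 : ℝ) else 1) k z ≤ 12 * h / (c * √(k : ℝ)) := by
    calc 4 / (c * K) * ∑ i, cw (fun u => if u (rep (z i / (h : ℤ))) = u i then (0 : ℝ) else 1) k z
        ≤ 4 / (c * K) * (K * (3 * h / √(k : ℝ))) := mul_le_mul_of_nonneg_left h4 (by positivity)
      _ = _ := by field_simp; ring
  have h6 : ∀ j ∈ (univ : Finset (Fin J)), cw (fun u => ∑ j' : Fin J,
      (if j < j' then 1 - (if u (p j) = u (q j') then (0 : ℝ) else 1) else 0)) k z ≤ J * e := by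
    intro j _
    have e0 := hE.sum (univ : Finset (Fin J)) (fun j' u =>
      (if j < j' then 1 - (if u (p j) = u (q j') then (0 : ℝ) else 1) else 0))
    rw [e0]
    have h3 : ∀ j' ∈ (univ : Finset (Fin J)), cw (fun u =>
        (if j < j' then 1 - (if u (p j) = u (q j') then (0 : ℝ) else 1) else 0)) k z ≤ e := by
      intro j' _
      by_cases hj : j < j'
      · simp only [if_pos hj]
        have e1 : cw (fun u => 1 - (if u (p j) = u (q j') then (0 : ℝ) else 1)) k z =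
            1 - U (2 * k) (2 * (z (q j') - z (p j))) := by
          have e2 : (fun u : Fin K → ℤ => 1 - (if u (p j) = u (q j') then (0 : ℝ) else 1)) =
              fun u => (1 : ℝ) + (-1) * (if u (p j) = u (q j') then (0 : ℝ) else 1) := by
            funext u
            ring
          rw [e2, hE.add, hE.smul, hE.one, cw_ne]
          ring
        rw [e1]
        have f1 := hU (z (q j') - z (p j)) (by
          refine le_trans ?_ (le_abs_self _)
          push_cast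
          have g1 := (hS j _ (hp j).1).2
          have g2 := (hS j' _ (hq j').1).1
          have g3 := hjj j j' hj
          linarith)
        linarith
      · simp only [if_neg hj]
        rw [hE.const]
        exact he
    have h4 := sum_le_sum h3
    rw [sum_const, card_univ, Fintype.card_fin, nsmul_eq_mul] at h4
    exact h4
  have h7 := sum_le_sum h6
  rw [sum_const, card_univ, Fintype.card_fin, nsmul_eq_mul] at h7
  have h8 : (J : ℝ) * (J * e) = (J : ℝ) ^ 2 * e := by ring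
  rw [h8] at h7
  linarith

/-- few starting points in an interval -/
theorem few {f : ℤ → ℝ} (hf : ∀ v, f v = 0 ∨ f v = 1) {c : ℝ} {s : ℕ} (hc : c ≤ sw f s 0) :
    iw (fun z : Fin K → ℤ => Real.exp (c / 2 * K - ∑ i, f (z i))) s (fun _ => 0) ≤ Real.exp (-(c / 8 * K)) := by
  obtain ⟨g, hg⟩ : ∃ g : ℤ → ℝ, g = fun v => Real.exp (-(f v)) := ⟨_, rfl⟩
  have e1 : (fun z : Fin K → ℤ => Real.exp (c / 2 * K - ∑ i, f (z i))) =
      fun z => Real.exp (c / 2 * K) * ∏ i, (fun _ : Fin K => g) i (z i) := by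
    funext z
    rw [sub_eq_add_neg, Real.exp_add, ← sum_neg_distrib, Real.exp_sum]
    congr 1
    rw [hg]
  have hE := isE_iw (k := K) s (fun _ => 0)
  rw [e1, hE.smul, iw_prod (fun _ : Fin K => g), prod_const, card_univ, Fintype.card_fin]
  have h5 : Real.exp (-1) ≤ 3 / 8 := by
    rw [Real.exp_neg, inv_le_comm₀ (Real.exp_pos 1) (by norm_num)]
    have := Real.exp_one_gt_d9
    norm_num at this ⊢
    linarith
  have e2 : g = fun v => (1 : ℝ) + (-(1 - Real.exp (-1))) * f v := by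
    rw [hg]
    funext v
    rcases hf v with h | h
    · rw [h]; simp
    · rw [h]; ring
  have e3 : sw g s 0 = 1 - (1 - Real.exp (-1)) * sw f s 0 := by
    rw [e2, sw_add (fun _ => 1) (fun x => (-(1 - Real.exp (-1))) * f x), sw_smul, sw_cst]
    ring
  have h0 : 0 ≤ sw f s 0 := sw_nonneg (fun v => by rcases hf v with h | h <;> rw [h] <;> norm_num) s 0
  have e4 : sw g s 0 ≤ Real.exp (-(5 / 8 * c)) := by
    have h1 : 5 / 8 * sw f s 0 ≤ (1 - Real.exp (-1)) * sw f s 0 := mul_le_mul_of_nonneg_right (by linarith) h0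
    have h2 := Real.add_one_le_exp (-(5 / 8 * c))
    rw [e3]
    linarith
  have e5 : 0 ≤ sw g s 0 := sw_nonneg (fun v => by rw [hg]; exact (Real.exp_pos _).le) s 0
  calc Real.exp (c / 2 * K) * (sw g s 0) ^ K ≤ Real.exp (c / 2 * K) * (Real.exp (-(5 / 8 * c))) ^ K :=
        mul_le_mul_of_nonneg_left (pow_le_pow_left₀ e5 e4 K) (Real.exp_pos _).le
    _ = Real.exp (-(c / 8 * K)) := by
        rw [← Real.exp_nat_mul, ← Real.exp_add]
        congr 1
        ring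

/-- (N1) -/
theorem t_BIG : S_UFAR → S_MASS → S_BIG := by
  classical
  intro hU hM J η ρ ρ' hη hρ' hρ
  obtain ⟨e, he⟩ : ∃ e : ℝ, e = η / (4 * ((J : ℝ) ^ 2 + 1)) := ⟨_, rfl⟩
  have he0 : 0 < e := by rw [he]; positivity
  obtain ⟨G, hG, hUG⟩ := hU e he0
  have hsρ : 0 < √ρ' := Real.sqrt_pos.2 hρ'
  obtain ⟨D, hD⟩ : ∃ D : ℝ, D = 1 + G / √ρ' := ⟨_, rfl⟩
  have hD1 : 1 ≤ D := by
    rw [hD]
    have : 0 < G / √ρ' := by positivity
    linarith
  have hM' : ∀ j : Fin J, ∃ c : ℝ, 0 < c ∧ ∀ᶠ s : ℕ in atTop,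
      c ≤ sw (fun u : ℤ => ge1 ⌈(s : ℝ) / 2 + ((j : ℕ) * D) * √s⌉ u * le1 ⌊(s : ℝ) / 2 + ((j : ℕ) * D + 1) * √s⌋ u) s 0 :=
    fun j => hM ((j : ℕ) * D) 1 (by positivity) one_pos
  choose c hc hcs using hM'
  obtain ⟨c₀, hc₀, hc₀1, hc₀c⟩ : ∃ c₀ : ℝ, 0 < c₀ ∧ c₀ ≤ 1 / 2 ∧ ∀ j, c₀ ≤ c j := by
    obtain ⟨S, hS⟩ : ∃ S : Finset ℝ, S = insert (1 / 2) (univ.image c) := ⟨_, rfl⟩
    have hne : S.Nonempty := by rw [hS]; exact insert_nonempty _ _
    refine ⟨S.min' hne, ?_, S.min'_le _ (by rw [hS]; exact mem_insert_self _ _),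
      fun j => S.min'_le _ (by rw [hS]; exact mem_insert_of_mem (mem_image_of_mem c (mem_univ j)))⟩
    have h1 := S.min'_mem hne
    obtain ⟨x, hx⟩ : ∃ x, x = S.min' hne := ⟨_, rfl⟩
    rw [← hx] at h1 ⊢
    rw [hS, mem_insert, mem_image] at h1
    rcases h1 with h1 | ⟨j, _, h1⟩
    · rw [h1]; norm_num
    · rw [← h1]; exact hc j
  obtain ⟨γ, hγ⟩ : ∃ γ : ℝ, γ = c₀ * η / 96 := ⟨_, rfl⟩
  have hγ0 : 0 < γ := by rw [hγ]; positivity
  obtain ⟨Q, hQ⟩ : ∃ Q : ℝ, Q = √ρ / γ + 2 := ⟨_, rfl⟩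
  have hQ0 : 0 < Q := by rw [hQ]; positivity
  refine ⟨c₀ / (4 * Q), by positivity, ?_⟩
  obtain ⟨w, hw⟩ : ∃ w : ℝ, w = c₀ / (4 * Q) := ⟨_, rfl⟩
  rw [← hw]
  have hw0 : 0 ≤ w := by rw [hw]; positivity
  have hQw : Q * w ≤ c₀ / 4 := by
    rw [hw]
    apply le_of_eq
    field_simp
  have hKt : ∀ᶠ K : ℕ in atTop, (J : ℝ) * Real.exp (-(c₀ / 8 * K)) ≤ η / 4 := by
    have h1 : Tendsto (fun K : ℕ => (J : ℝ) * Real.exp (-(c₀ / 8 * K))) atTop (nhds (J * 0)) := by
      refine Tendsto.const_mul _ (Real.tendsto_exp_neg_atTop_nhds_zero.comp ?_)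
      exact tendsto_natCast_atTop_atTop.const_mul_atTop (by positivity)
    rw [mul_zero] at h1
    exact h1.eventually_le_const (by positivity)
  obtain ⟨K₀, hK₀⟩ := eventually_atTop.1 hKt
  refine ⟨max K₀ 1, fun K hK => ?_⟩
  have hK1 : 0 < K := (le_max_right K₀ 1).trans hK
  have hKe := hK₀ K ((le_max_left _ _).trans hK)
  have hs : ∀ᶠ s : ℕ in atTop, ∀ j : Fin J,
      c₀ ≤ sw (fun u : ℤ => ge1 ⌈(s : ℝ) / 2 + ((j : ℕ) * D) * √s⌉ u * le1 ⌊(s : ℝ) / 2 + ((j : ℕ) * D + 1) * √s⌋ u) s 0 := by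
    rw [eventually_all]
    intro j
    filter_upwards [hcs j] with s h
    exact (hc₀c j).trans h
  obtain ⟨s₀, hs₀⟩ := eventually_atTop.1 hs
  have hsq : Tendsto (fun t : ℕ => √ (t : ℝ)) atTop atTop := Real.tendsto_sqrt_atTop.comp tendsto_natCast_atTop_atTop
  filter_upwards [hUG, eventually_ge_atTop ⌈(s₀ : ℝ) / ρ'⌉₊, eventually_ge_atTop 1, hsq.eventually_ge_atTop (96 / (c₀ * η))]
    with k h1 h2 hk hk2 s h4 h4'
  have hss : s₀ ≤ s := by
    have h5 : (s₀ : ℝ) / ρ' ≤ k := (Nat.le_ceil _).trans (by exact_mod_cast h2)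
    rw [div_le_iff₀ hρ'] at h5
    exact_mod_cast (by linarith : (s₀ : ℝ) ≤ s)
  have hmass := hs₀ s hss
  obtain ⟨f, hf⟩ : ∃ f : Fin J → ℤ → ℝ, f = fun (j : Fin J) (u : ℤ) =>
    ge1 ⌈(s : ℝ) / 2 + ((j : ℕ) * D) * √s⌉ u * le1 ⌊(s : ℝ) / 2 + ((j : ℕ) * D + 1) * √s⌋ u := ⟨_, rfl⟩
  have hmass' : ∀ j, c₀ ≤ sw (f j) s 0 := fun j => by rw [hf]; exact hmass j
  have hf01 : ∀ j u, f j u = 0 ∨ (f j u = 1 ∧ (s : ℝ) / 2 + ((j : ℕ) * D) * √s ≤ u ∧
      (u : ℝ) ≤ (s : ℝ) / 2 + ((j : ℕ) * D + 1) * √s) := by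
    intro j u
    rw [hf]
    simp only [ge1, le1]
    by_cases ha : ⌈(s : ℝ) / 2 + ((j : ℕ) * D) * √s⌉ ≤ u
    · by_cases hb : u ≤ ⌊(s : ℝ) / 2 + ((j : ℕ) * D + 1) * √s⌋
      · right
        rw [if_pos ha, if_pos hb]
        exact ⟨by norm_num, Int.ceil_le.1 ha, Int.le_floor.1 hb⟩
      · left
        rw [if_neg hb, mul_zero]
    · left
      rw [if_neg ha, zero_mul]
  have hf01' : ∀ j u, f j u = 0 ∨ f j u = 1 := fun j u => (hf01 j u).imp id And.left
  -- distances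
  have hks : G * √(k : ℝ) ≤ (D - 1) * √(s : ℝ) := by
    have h5 : √ρ' * √(k : ℝ) ≤ √(s : ℝ) := by
      rw [← Real.sqrt_mul hρ'.le]
      exact Real.sqrt_le_sqrt h4
    have h6 : D - 1 = G / √ρ' := by rw [hD]; ring
    rw [h6]
    calc G * √(k : ℝ) = G / √ρ' * (√ρ' * √(k : ℝ)) := by field_simp
      _ ≤ G / √ρ' * √(s : ℝ) := mul_le_mul_of_nonneg_left h5 (by positivity)
  have hk0 : (0 : ℝ) < √(k : ℝ) := Real.sqrt_pos.2 (by exact_mod_cast hk)
  obtain ⟨h, hh⟩ : ∃ h : ℕ, h = ⌈γ * √ (k : ℝ)⌉₊ := ⟨_, rfl⟩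
  have hh1 : 1 ≤ h := by rw [hh]; exact Nat.one_le_ceil_iff.2 (by positivity)
  have hhl : γ * √ (k : ℝ) ≤ h := by rw [hh]; exact Nat.le_ceil _
  have hhu : (h : ℝ) ≤ γ * √ (k : ℝ) + 1 := by
    rw [hh]; exact (Nat.ceil_lt_add_one (by positivity)).le
  have hh0 : (0 : ℝ) < h := by exact_mod_cast hh1
  have hQ2 : √(s : ℝ) / h + 2 ≤ Q := by
    have g1 : √ (s : ℝ) ≤ √ρ * √ (k : ℝ) := by
      rw [← Real.sqrt_mul hρ.le]
      exact Real.sqrt_le_sqrt h4'
    have g2 : √(s : ℝ) / h ≤ √ρ / γ := by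
      rw [div_le_div_iff₀ hh0 hγ0]
      calc √(s : ℝ) * γ ≤ √ρ * √ (k : ℝ) * γ := mul_le_mul_of_nonneg_right g1 hγ0.le
        _ = √ρ * (γ * √ (k : ℝ)) := by ring
        _ ≤ √ρ * h := mul_le_mul_of_nonneg_left hhl (Real.sqrt_nonneg _)
    rw [hQ]
    linarith
  have herr : 12 * h / (c₀ * √(k : ℝ)) ≤ η / 4 := by
    rw [div_le_iff₀ (by positivity)]
    rw [div_le_iff₀ (by positivity)] at hk2
    have g1 : γ * √ (k : ℝ) = c₀ * η / 96 * √ (k : ℝ) := by rw [hγ]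
    nlinarith
  have hJe : (J : ℝ) ^ 2 * e ≤ η / 4 := by
    rw [he, mul_div_assoc', div_le_div_iff₀ (by positivity) (by positivity)]
    nlinarith
  -- pointwise
  have hpt : ∀ z : Fin K → ℤ, (1 - η / 2) + ∑ j : Fin J, (-1) * Real.exp (c₀ / 2 * K - ∑ i, f j (z i)) ≤ cw (bigI w J) k z := by
    intro z
    have hsum0 : ∀ j : Fin J, (-1 : ℝ) * Real.exp (c₀ / 2 * K - ∑ i, f j (z i)) ≤ 0 := fun j => by
      have := Real.exp_pos (c₀ / 2 * K - ∑ i, f j (z i))
      linarith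
    by_cases hz : ∀ j : Fin J, c₀ / 2 * K ≤ ∑ i, f j (z i)
    · have hcard : ∀ j : Fin J, ((#(univ.filter fun i => f j (z i) = 1) : ℕ) : ℝ) = ∑ i, f j (z i) := by
        intro j
        rw [card_filter]
        push_cast
        apply sum_congr rfl
        intro i _
        rcases hf01' j (z i) with g | g
        · rw [g, if_neg (by norm_num)]
        · rw [g, if_pos rfl]
      have hmem : ∀ j : Fin J, ∀ i ∈ univ.filter (fun i => f j (z i) = 1), (s : ℝ) / 2 + ((j : ℕ) * D) * √s ≤ z i ∧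
          (z i : ℝ) ≤ (s : ℝ) / 2 + ((j : ℕ) * D + 1) * √s := by
        intro j i hi
        rw [mem_filter] at hi
        rcases hf01 j (z i) with g | g
        · rw [g] at hi
          exact absurd hi.2 (by norm_num)
        · exact g.2
      have g1 := cw_big (J := J) (w := w) (c := c₀) (e := e) hw0 hc₀ hK1 hh1 hk he0.le z
        (fun j => univ.filter fun i => f j (z i) = 1) (fun j => (s : ℝ) / 2 + ((j : ℕ) * D) * √s)
        (fun j => (s : ℝ) / 2 + ((j : ℕ) * D + 1) * √s) (Q := Q) (G := G * √(k : ℝ))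
        (fun j => by
          have := Real.sqrt_nonneg (s : ℝ)
          show (s : ℝ) / 2 + ((j : ℕ) * D) * √s ≤ (s : ℝ) / 2 + ((j : ℕ) * D + 1) * √s
          linarith)
        (fun j => by
          have e1 : (s : ℝ) / 2 + ((j : ℕ) * D + 1) * √s - ((s : ℝ) / 2 + ((j : ℕ) * D) * √s) = √(s : ℝ) := by ring
          show ((s : ℝ) / 2 + ((j : ℕ) * D + 1) * √s - ((s : ℝ) / 2 + ((j : ℕ) * D) * √s)) / h + 2 ≤ Q
          rw [e1]
          exact hQ2) hQw hmem (fun j => by rw [hcard]; exact hz j) (by positivity)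
        (fun j j' hjj => by
          show (s : ℝ) / 2 + ((j : ℕ) * D + 1) * √s + G * √(k : ℝ) ≤ (s : ℝ) / 2 + ((j' : ℕ) * D) * √s
          have h6 : ((j : ℕ) : ℝ) + 1 ≤ (j' : ℕ) := by exact_mod_cast hjj
          have h7 : (((j : ℕ) : ℝ) + 1) * D ≤ (j' : ℕ) * D := mul_le_mul_of_nonneg_right h6 (by linarith)
          have h8 : ((((j : ℕ) : ℝ) + 1) * D) * √(s : ℝ) ≤ ((j' : ℕ) * D) * √(s : ℝ) :=
            mul_le_mul_of_nonneg_right h7 (Real.sqrt_nonneg _)
          linarith)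
        h1
      have g2 : ∑ j : Fin J, (-1) * Real.exp (c₀ / 2 * K - ∑ i, f j (z i)) ≤ 0 := sum_nonpos fun j _ => hsum0 j
      linarith
    · push Not at hz
      obtain ⟨j, hj⟩ := hz
      have g1 : ∑ j : Fin J, (-1) * Real.exp (c₀ / 2 * K - ∑ i, f j (z i)) ≤ (-1) * Real.exp (c₀ / 2 * K - ∑ i, f j (z i)) := by
        rw [← add_sum_erase univ _ (mem_univ j)]
        have : ∑ j ∈ univ.erase j, (-1) * Real.exp (c₀ / 2 * K - ∑ i, f j (z i)) ≤ 0 := sum_nonpos fun j _ => hsum0 j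
        linarith
      have g2 : 1 ≤ Real.exp (c₀ / 2 * K - ∑ i, f j (z i)) := Real.one_le_exp (by linarith)
      have g3 : 0 ≤ cw (bigI w J) k z := (isE_cw k z).nonneg fun u => (bigI_le w J u).1
      linarith
  have hE := isE_iw (k := K) s (fun _ => 0)
  refine le_trans ?_ (hE.mono _ _ hpt)
  rw [hE.add, hE.const, hE.sum]
  have g1 : ∑ j : Fin J, -Real.exp (-(c₀ / 8 * K)) ≤
      ∑ j : Fin J, iw (fun z : Fin K → ℤ => (-1) * Real.exp (c₀ / 2 * K - ∑ i, f j (z i))) s (fun _ => 0) := by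
    refine sum_le_sum fun j _ => ?_
    have g2 := few (K := K) (hf01' j) (hmass' j)
    have g3 := hE.smul (-1) (fun z : Fin K → ℤ => Real.exp (c₀ / 2 * K - ∑ i, f j (z i)))
    rw [g3]
    linarith
  rw [sum_const, card_univ, Fintype.card_fin, nsmul_eq_mul] at g1
  linarith

end Pool.Agent.J4H18.KP.Big

namespace Pool.Agent.J4H18.KP

open Pool.Agent.J4H26.KP

/-- (N1) -/
theorem t_BIG : S_UFAR → S_MASS → S_BIG := Big.t_BIG

end Pool.Agent.J4H18.KP
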