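import Mathlib
import Pool.Agent.J4H26.KP.Sup
import Pool.Agent.J4H39.L1

set_option autoImplicit false

/-! Project KP, piece P3: quantiles of the binomial law, from the normal limit. -/

namespace Pool.Agent.J4H18.KP

open Finset Filter Topology MeasureTheory ProbabilityTheory
open Pool.Agent.J4H39 (nu nu_apply nuP gaP nu_lim)
open Pool.Agent.J4H26.KT (sw sw_rep)
open Pool.Agent.J4H26.AF (pm pm_eq)
open Pool.Agent.J4H26.KP (le1 ge1 S_QNT)

/-- the walk and the measure `nu` -/
theorem sw_nu (s : ℕ) (g : ℤ → ℝ) {E : Set ℝ} (hE : MeasurableSet E)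
    (h : ∀ l : ℕ, g (l : ℤ) = E.indicator (fun _ => (1 : ℝ)) ((2 * (l : ℝ) - s) / √ s)) :
    sw g s 0 = (nu s E).toReal := by
  rw [nu_apply s hE, ENNReal.toReal_ofReal (sum_nonneg fun l _ =>
    mul_nonneg (by positivity) (Set.indicator_nonneg (fun _ _ => zero_le_one) _)), sw_rep]
  apply sum_congr rfl
  intro l _
  rw [pm_eq, zero_add, h l]

/-- the normal limit -/
theorem nu_set {E : Set ℝ} (hE : gaussianReal 0 1 (frontier E) = 0) :
    Tendsto (fun q : ℕ => (nu q E).toReal) atTop (𝓝 (gaussianReal 0 1 E).toReal) := by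
  have h1 : (gaP : Measure ℝ) (frontier E) = 0 := hE
  have h2 := ProbabilityMeasure.tendsto_measure_of_null_frontier_of_tendsto' nu_lim h1
  have h3 : (gaP : Measure ℝ) E = gaussianReal 0 1 E := rfl
  rw [h3] at h2
  exact (ENNReal.tendsto_toReal (measure_ne_top _ _)).comp h2

/-- the normal distribution function is continuous -/
theorem cdf_cont : Continuous (cdf (gaussianReal 0 1)) := by
  have hna : NullSingletonClass (gaussianReal 0 1) := nullSingletonClass_gaussianReal (by norm_num)
  rw [continuous_iff_continuousAt]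
  intro a
  have hm : Monotone (cdf (gaussianReal 0 1)) := monotone_cdf _
  have h1 : (cdf (gaussianReal 0 1)).measure {a} = 0 := by
    rw [measure_cdf]
    exact measure_singleton a
  rw [StieltjesFunction.measure_singleton, ENNReal.ofReal_eq_zero] at h1
  have h2 : Function.leftLim (cdf (gaussianReal 0 1)) a = cdf (gaussianReal 0 1) a :=
    le_antisymm (hm.leftLim_le le_rfl) (by linarith)
  have h3 : Function.rightLim (cdf (gaussianReal 0 1)) a = cdf (gaussianReal 0 1) a :=
    StieltjesFunction.rightLim_eq _ a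
  rw [hm.continuousAt_iff_leftLim_eq_rightLim, h2, h3]

theorem quant (x η : ℝ) (hx0 : 0 < x) (hx1 : x < 1) (hη : 0 < η) : ∃ t₁ t₂ : ℝ, t₁ < t₂ ∧
    x - η < (gaussianReal 0 1 (Set.Iic t₁)).toReal ∧ 1 - x - η < (gaussianReal 0 1 (Set.Ici t₂)).toReal := by
  have hc := cdf_cont
  obtain ⟨a, ha⟩ := ((tendsto_cdf_atBot (gaussianReal 0 1)).eventually (ge_mem_nhds hx0)).exists
  obtain ⟨b, hb⟩ := ((tendsto_cdf_atTop (gaussianReal 0 1)).eventually (le_mem_nhds hx1)).exists
  obtain ⟨t, ht⟩ := mem_range_of_exists_le_of_exists_ge hc ⟨a, ha⟩ ⟨b, hb⟩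
  obtain ⟨δ, hδ, hd⟩ := Metric.continuous_iff.1 hc t η hη
  have e1 := hd (t - δ / 2) (by rw [Real.dist_eq, show t - δ / 2 - t = -(δ / 2) by ring, abs_neg, abs_of_pos (by positivity)]; linarith)
  have e2 := hd (t + δ / 2) (by rw [Real.dist_eq, show t + δ / 2 - t = δ / 2 by ring, abs_of_pos (by positivity)]; linarith)
  rw [Real.dist_eq, ht, abs_lt] at e1 e2
  have f1 := cdf_eq_real (gaussianReal 0 1) (t - δ / 2)
  have f2 := cdf_eq_real (gaussianReal 0 1) (t + δ / 2)
  refine ⟨t - δ / 2, t + δ / 2, by linarith, ?_, ?_⟩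
  · change x - η < (gaussianReal 0 1).real (Set.Iic (t - δ / 2))
    linarith [e1.1]
  · change 1 - x - η < (gaussianReal 0 1).real (Set.Ici (t + δ / 2))
    have h3 : (gaussianReal 0 1).real (Set.Iic (t + δ / 2))ᶜ = 1 - (gaussianReal 0 1).real (Set.Iic (t + δ / 2)) :=
      probReal_compl_eq_one_sub measurableSet_Iic
    have h4 : (gaussianReal 0 1).real (Set.Iic (t + δ / 2))ᶜ ≤ (gaussianReal 0 1).real (Set.Ici (t + δ / 2)) := by
      apply measureReal_mono _ (measure_ne_top _ _)
      rw [Set.compl_Iic]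
      exact Set.Ioi_subset_Ici_self
    linarith [e2.2]

/-- (P3) -/
theorem t_QNT : S_QNT := by
  intro x η hx0 hx1 hη
  have hna : NullSingletonClass (gaussianReal 0 1) := nullSingletonClass_gaussianReal (by norm_num)
  obtain ⟨t₁, t₂, h12, h1, h2⟩ := quant x η hx0 hx1 hη
  have l1 : Tendsto (fun q : ℕ => (nu q (Set.Iic t₁)).toReal) atTop (𝓝 (gaussianReal 0 1 (Set.Iic t₁)).toReal) :=
    nu_set (by rw [frontier_Iic]; exact measure_singleton _)
  have l2 : Tendsto (fun q : ℕ => (nu q (Set.Ici t₂)).toReal) atTop (𝓝 (gaussianReal 0 1 (Set.Ici t₂)).toReal) :=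
    nu_set (by rw [frontier_Ici]; exact measure_singleton _)
  refine ⟨(t₂ - t₁) / 2, by linarith, ?_⟩
  filter_upwards [l1.eventually (lt_mem_nhds h1), l2.eventually (lt_mem_nhds h2), eventually_ge_atTop 1] with s hs1 hs2 hs
  have hr : (0 : ℝ) < √ s := Real.sqrt_pos.2 (by exact_mod_cast hs)
  refine ⟨⌊((s : ℝ) + t₁ * √ s) / 2⌋, ⌈((s : ℝ) + t₂ * √ s) / 2⌉, ?_, ?_, ?_⟩
  · have g1 := Int.floor_le (((s : ℝ) + t₁ * √ s) / 2)
    have g2 := Int.le_ceil (((s : ℝ) + t₂ * √ s) / 2)
    linarith
  · rw [sw_nu s _ measurableSet_Iic (E := Set.Iic t₁)]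
    · exact hs1.le
    · intro l
      unfold le1
      by_cases hl : ((2 * (l : ℝ) - s) / √ s) ≤ t₁
      · rw [Set.indicator_of_mem (by exact hl), if_pos]
        rw [div_le_iff₀ hr] at hl
        rw [Int.le_floor]
        push_cast
        linarith
      · rw [Set.indicator_of_notMem (by exact hl), if_neg]
        rw [div_le_iff₀ hr] at hl
        rw [Int.le_floor]
        push_cast
        intro h
        apply hl
        linarith
  · rw [sw_nu s _ measurableSet_Ici (E := Set.Ici t₂)]
    · exact hs2.le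
    · intro l
      unfold ge1
      by_cases hl : t₂ ≤ ((2 * (l : ℝ) - s) / √ s)
      · rw [Set.indicator_of_mem (by exact hl), if_pos]
        rw [le_div_iff₀ hr] at hl
        rw [Int.ceil_le]
        push_cast
        linarith
      · rw [Set.indicator_of_notMem (by exact hl), if_neg]
        rw [le_div_iff₀ hr] at hl
        rw [Int.ceil_le]
        push_cast
        intro h
        apply hl
        linarith

end Pool.Agent.J4H18.KP
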