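import Mathlib
import Pool.Agent.J4H39.KP.TL
import Pool.Agent.J4H18.KP.Qnt

set_option autoImplicit false

/-! Project KP, part TL, piece T2: the mass of an interval far out. -/

namespace Pool.Agent.J4H18.KP

open Finset Filter Topology MeasureTheory ProbabilityTheory
open Pool.Agent.J4H39 (nu)
open Pool.Agent.J4H26.KT (sw)
open Pool.Agent.J4H26.KP (le1 ge1)
open Pool.Agent.J4H39.KP (S_GMS)

/-- the normal law of `[4 j, 4 j + 2]` -/
theorem gauss_low (j : ℕ) : 2 * ((√ (2 * Real.pi))⁻¹ * Real.exp (-2) * Real.exp (-16 * (j : ℝ) ^ 2)) ≤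
    (gaussianReal 0 1 (Set.Icc (4 * (j : ℝ)) (4 * j + 2))).toReal := by
  have h0 : (1 : NNReal) ≠ 0 := one_ne_zero
  rw [gaussianReal_apply_eq_integral 0 h0, ENNReal.toReal_ofReal (setIntegral_nonneg measurableSet_Icc
    (fun x _ => gaussianPDFReal_nonneg 0 1 x))]
  have hv : (volume (Set.Icc (4 * (j : ℝ)) (4 * j + 2))).toReal = 2 := by
    rw [Real.volume_Icc, show 4 * (j : ℝ) + 2 - 4 * j = 2 by ring]
    norm_num
  have h1 : ∀ x ∈ Set.Icc (4 * (j : ℝ)) (4 * j + 2),
      (√ (2 * Real.pi))⁻¹ * Real.exp (-2) * Real.exp (-16 * (j : ℝ) ^ 2) ≤ gaussianPDFReal 0 1 x := by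
    intro x hx
    unfold gaussianPDFReal
    have e1 : √ (2 * Real.pi * ((1 : NNReal) : ℝ)) = √ (2 * Real.pi) := by rw [NNReal.coe_one, mul_one]
    rw [e1, mul_assoc, ← Real.exp_add]
    apply mul_le_mul_of_nonneg_left _ (by positivity)
    apply Real.exp_le_exp.2
    rw [NNReal.coe_one, sub_zero, mul_one]
    have hj : (j : ℝ) ≤ (j : ℝ) ^ 2 := by
      rcases Nat.eq_zero_or_pos j with h | h
      · subst h; norm_num
      · have : (1 : ℝ) ≤ j := by exact_mod_cast h
        nlinarith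
    have hj0 : (0 : ℝ) ≤ j := by positivity
    have hx0 : 0 ≤ x := by linarith [hx.1]
    have hx2 : x ^ 2 ≤ (4 * (j : ℝ) + 2) ^ 2 := pow_le_pow_left₀ hx0 hx.2 2
    rw [neg_div]
    nlinarith
  have h2 := setIntegral_ge_of_const_le (μ := volume) measurableSet_Icc
    (by rw [Real.volume_Icc]; exact ENNReal.ofReal_ne_top) h1 (integrable_gaussianPDFReal 0 1).integrableOn
  rw [measureReal_def, hv, smul_eq_mul] at h2
  linarith

/-- (T2) -/
theorem t_GMS : S_GMS := by
  have hna : NullSingletonClass (gaussianReal 0 1) := nullSingletonClass_gaussianReal (by norm_num)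
  refine ⟨(√ (2 * Real.pi))⁻¹ * Real.exp (-2), by positivity, fun j => ?_⟩
  have hab : (4 * (j : ℝ)) ≤ 4 * j + 2 := by linarith
  have h1 : Tendsto (fun q : ℕ => (nu q (Set.Icc (4 * (j : ℝ)) (4 * j + 2))).toReal) atTop
      (𝓝 (gaussianReal 0 1 (Set.Icc (4 * (j : ℝ)) (4 * j + 2))).toReal) := by
    apply nu_set
    rw [frontier_Icc hab]
    exact (Set.toFinite _).measure_zero _
  have h2 := gauss_low j
  have h3 : 0 < (√ (2 * Real.pi))⁻¹ * Real.exp (-2) * Real.exp (-16 * (j : ℝ) ^ 2) := by positivity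
  filter_upwards [h1.eventually (lt_mem_nhds (show (√ (2 * Real.pi))⁻¹ * Real.exp (-2) * Real.exp (-16 * (j : ℝ) ^ 2) <
    (gaussianReal 0 1 (Set.Icc (4 * (j : ℝ)) (4 * j + 2))).toReal by linarith)), eventually_ge_atTop 1] with s hs1 hs3
  have hr : (0 : ℝ) < √ s := Real.sqrt_pos.2 (by exact_mod_cast hs3)
  rw [sw_nu s _ measurableSet_Icc (E := Set.Icc (4 * (j : ℝ)) (4 * j + 2))]
  · exact hs1.le
  · intro k
    by_cases hk : ((2 * (k : ℝ) - s) / √ s) ∈ Set.Icc (4 * (j : ℝ)) (4 * j + 2)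
    · rw [Set.indicator_of_mem hk]
      obtain ⟨hk1, hk2⟩ := hk
      rw [le_div_iff₀ hr] at hk1
      rw [div_le_iff₀ hr] at hk2
      unfold ge1 le1
      rw [if_pos, if_pos, mul_one]
      · rw [Int.le_floor]
        push_cast
        linarith
      · rw [Int.ceil_le]
        push_cast
        linarith
    · rw [Set.indicator_of_notMem hk]
      unfold ge1 le1
      by_cases a1 : ⌈(s : ℝ) / 2 + 2 * j * √ s⌉ ≤ (k : ℤ)
      · by_cases a2 : (k : ℤ) ≤ ⌊(s : ℝ) / 2 + (2 * j + 1) * √ s⌋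
        · exfalso
          apply hk
          rw [Int.ceil_le] at a1
          rw [Int.le_floor] at a2
          push_cast at a1 a2
          constructor
          · rw [le_div_iff₀ hr]
            linarith
          · rw [div_le_iff₀ hr]
            linarith
        · rw [if_neg a2, mul_zero]
      · rw [if_neg a1, zero_mul]

end Pool.Agent.J4H18.KP
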