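import Mathlib
import Pool.Agent.J4H26.KP.Supr
import Pool.Agent.J4H18.KP.Qnt

set_option autoImplicit false

/-! Project KP, piece R2: quantiles of the binomial law, several intervals. -/

namespace Pool.Agent.J4H18.KP

open Finset Filter Topology MeasureTheory ProbabilityTheory
open Pool.Agent.J4H39 (nu)
open Pool.Agent.J4H26.KT (sw)
open Pool.Agent.J4H26.KP (ii S_QNTR)

/-- quantiles of the normal law -/
theorem quantile (y : ℝ) (h0 : 0 < y) (h1 : y < 1) : ∃ t : ℝ, cdf (gaussianReal 0 1) t = y := by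
  obtain ⟨a, ha⟩ := ((tendsto_cdf_atBot (gaussianReal 0 1)).eventually (ge_mem_nhds h0)).exists
  obtain ⟨b, hb⟩ := ((tendsto_cdf_atTop (gaussianReal 0 1)).eventually (le_mem_nhds h1)).exists
  obtain ⟨t, ht⟩ := mem_range_of_exists_le_of_exists_ge cdf_cont ⟨a, ha⟩ ⟨b, hb⟩
  exact ⟨t, ht⟩

/-- the mass of an interval -/
theorem mass_Icc {a b : ℝ} (hab : a ≤ b) :
    cdf (gaussianReal 0 1) b - cdf (gaussianReal 0 1) a ≤ (gaussianReal 0 1 (Set.Icc a b)).toReal := by
  rw [cdf_eq_real, cdf_eq_real]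
  change _ ≤ (gaussianReal 0 1).real (Set.Icc a b)
  have h1 : (gaussianReal 0 1).real (Set.Iic b) ≤ (gaussianReal 0 1).real (Set.Iic a ∪ Set.Icc a b) := by
    apply measureReal_mono _ (measure_ne_top _ _)
    intro x hx
    rcases le_total x a with h | h
    · exact Or.inl h
    · exact Or.inr ⟨h, hx⟩
  have h2 := measureReal_union_le (μ := gaussianReal 0 1) (Set.Iic a) (Set.Icc a b)
  linarith

/-- real intervals -/
theorem quant_r (r : ℕ) (x : Fin r → ℝ) (η : ℝ) (hx : ∀ l, 0 < x l) (hs : ∑ l, x l = 1) (hη : 0 < η) :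
    ∃ a b : Fin r → ℝ, (∀ l, a l < b l) ∧ (∀ l l' : Fin r, l < l' → b l < a l') ∧
      ∀ l, x l - η < (gaussianReal 0 1 (Set.Icc (a l) (b l))).toReal := by
  classical
  obtain ⟨ζ, hζ0, hζη, hζx⟩ : ∃ ζ : ℝ, 0 < ζ ∧ 2 * ζ < η ∧ ∀ l, 2 * ζ < x l := by
    rcases Nat.eq_zero_or_pos r with hr | hr
    · subst hr
      exact ⟨η / 4, by linarith, by linarith, fun l => l.elim0⟩
    · have : Nonempty (Fin r) := ⟨⟨0, hr⟩⟩
      obtain ⟨l₀, hl₀⟩ := Finite.exists_min x
      have h1 := hx l₀
      refine ⟨min η (x l₀) / 4, by have := lt_min hη h1; linarith, ?_, fun l => ?_⟩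
      · have := min_le_left η (x l₀); have := lt_min hη h1; linarith
      · have := min_le_right η (x l₀); have := lt_min hη h1; have := hl₀ l; linarith
  obtain ⟨F, hF⟩ : ∃ F : ℕ → ℝ, F = fun n => ∑ j ∈ univ.filter (fun j : Fin r => (j : ℕ) < n), x j := ⟨_, rfl⟩
  have hF0 : ∀ n, 0 ≤ F n := by
    intro n
    rw [hF]
    exact sum_nonneg fun j _ => (hx j).le
  have hFs : ∀ l : Fin r, F ((l : ℕ) + 1) = F (l : ℕ) + x l := by
    intro l
    rw [hF]
    simp only
    have e : univ.filter (fun j : Fin r => (j : ℕ) < (l : ℕ) + 1) = insert l (univ.filter (fun j : Fin r => (j : ℕ) < (l : ℕ))) := by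
      ext j
      simp only [mem_filter, mem_univ, true_and, mem_insert, Fin.ext_iff]
      omega
    rw [e, sum_insert (by simp)]
    ring
  have hFm : ∀ n n', n ≤ n' → F n ≤ F n' := by
    intro n n' h
    rw [hF]
    simp only
    apply sum_le_sum_of_subset_of_nonneg
    · intro j hj
      rw [mem_filter] at hj ⊢
      exact ⟨hj.1, by omega⟩
    · intro j _ _
      exact (hx j).le
  have hF1 : ∀ n, F n ≤ 1 := by
    intro n
    rw [hF, ← hs]
    simp only
    exact sum_le_sum_of_subset_of_nonneg (filter_subset _ _) (fun j _ _ => (hx j).le)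
  have hA : ∀ l : Fin r, ∃ t : ℝ, cdf (gaussianReal 0 1) t = F (l : ℕ) + ζ := by
    intro l
    apply quantile
    · have := hF0 l; linarith
    · have h1 := hF1 ((l : ℕ) + 1)
      have h2 := hFs l
      have h3 := hζx l
      linarith
  have hB : ∀ l : Fin r, ∃ t : ℝ, cdf (gaussianReal 0 1) t = F ((l : ℕ) + 1) - ζ := by
    intro l
    apply quantile
    · have h1 := hF0 l
      have h2 := hFs l
      have h3 := hζx l
      linarith
    · have h1 := hF1 ((l : ℕ) + 1)
      linarith
  choose a ha using hA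
  choose b hb using hB
  have hm : Monotone (cdf (gaussianReal 0 1)) := monotone_cdf _
  have hlt : ∀ s t : ℝ, cdf (gaussianReal 0 1) s < cdf (gaussianReal 0 1) t → s < t := by
    intro s t h
    by_contra hcon
    exact absurd (hm (not_lt.1 hcon)) (not_le.2 h)
  have hab : ∀ l, a l < b l := by
    intro l
    apply hlt
    rw [ha, hb, hFs]
    have := hζx l
    linarith
  refine ⟨a, b, hab, ?_, ?_⟩
  · intro l l' hll
    apply hlt
    rw [ha, hb]
    have h1 : (l : ℕ) + 1 ≤ (l' : ℕ) := hll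
    have := hFm _ _ h1
    linarith
  · intro l
    have h1 := mass_Icc (hab l).le
    rw [ha, hb, hFs] at h1
    linarith

/-- (R2) -/
theorem t_QNTR : S_QNTR := by
  classical
  intro r x η hx hs hη
  have hna : NullSingletonClass (gaussianReal 0 1) := nullSingletonClass_gaussianReal (by norm_num)
  obtain ⟨a, b, hab, hba, hm⟩ := quant_r r x η hx hs hη
  -- the least gap
  obtain ⟨g, hg0, hg⟩ : ∃ g : ℝ, 0 < g ∧ ∀ l l' : Fin r, l < l' → b l + 2 * g ≤ a l' := by
    have h : ∀ p : Fin r × Fin r, ∃ g : ℝ, 0 < g ∧ (p.1 < p.2 → b p.1 + 2 * g ≤ a p.2) := by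
      intro p
      by_cases hp : p.1 < p.2
      · refine ⟨(a p.2 - b p.1) / 2, by have := hba _ _ hp; linarith, fun _ => by linarith⟩
      · exact ⟨1, one_pos, fun h => absurd h hp⟩
    choose G hG0 hG using h
    rcases isEmpty_or_nonempty (Fin r × Fin r) with he | he
    · exact ⟨1, one_pos, fun l l' _ => (he.false (l, l')).elim⟩
    · obtain ⟨p₀, hp₀⟩ := Finite.exists_min G
      refine ⟨G p₀, hG0 p₀, fun l l' hll => ?_⟩
      have h1 := hG (l, l') hll
      have h2 := hp₀ (l, l')
      simp only at h1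
      linarith
  have hl : ∀ l : Fin r, ∀ᶠ s : ℕ in atTop, x l - η < (nu s (Set.Icc (a l) (b l))).toReal := by
    intro l
    have h1 : Tendsto (fun q : ℕ => (nu q (Set.Icc (a l) (b l))).toReal) atTop
        (𝓝 (gaussianReal 0 1 (Set.Icc (a l) (b l))).toReal) := by
      apply nu_set
      rw [frontier_Icc (hab l).le]
      exact (Set.toFinite _).measure_zero _
    exact h1.eventually (lt_mem_nhds (hm l))
  have hw : ∀ l : Fin r, ∀ᶠ s : ℕ in atTop, 2 ≤ (b l - a l) * √ (s : ℝ) := by
    intro l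
    have h1 : Tendsto (fun s : ℕ => (b l - a l) * √ (s : ℝ)) atTop atTop :=
      Tendsto.const_mul_atTop (by have := hab l; linarith) (Real.tendsto_sqrt_atTop.comp tendsto_natCast_atTop_atTop)
    exact h1.eventually_ge_atTop 2
  refine ⟨g, hg0, ?_⟩
  filter_upwards [eventually_all.2 hl, eventually_all.2 hw, eventually_ge_atTop 1] with s hs1 hs2 hs3
  have hr : (0 : ℝ) < √ s := Real.sqrt_pos.2 (by exact_mod_cast hs3)
  refine ⟨fun l => ⌈((s : ℝ) + a l * √ s) / 2⌉, fun l => ⌊((s : ℝ) + b l * √ s) / 2⌋, ?_, ?_, ?_⟩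
  · intro l l' hll
    have g1 := Int.floor_le (((s : ℝ) + b l * √ s) / 2)
    have g2 := Int.le_ceil (((s : ℝ) + a l' * √ s) / 2)
    have g3 := mul_le_mul_of_nonneg_right (hg l l' hll) hr.le
    simp only
    linarith
  · intro l
    simp only
    rw [Int.le_floor]
    have g1 := (Int.ceil_lt_add_one (((s : ℝ) + a l * √ s) / 2)).le
    have g2 := hs2 l
    linarith
  · intro l
    have h1 : sw (ii ⌈((s : ℝ) + a l * √ s) / 2⌉ ⌊((s : ℝ) + b l * √ s) / 2⌋) s 0 = (nu s (Set.Icc (a l) (b l))).toReal := by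
      apply sw_nu s _ measurableSet_Icc
      intro k
      unfold ii
      by_cases hk : ((2 * (k : ℝ) - s) / √ s) ∈ Set.Icc (a l) (b l)
      · rw [Set.indicator_of_mem hk, if_pos]
        obtain ⟨hk1, hk2⟩ := hk
        rw [le_div_iff₀ hr] at hk1
        rw [div_le_iff₀ hr] at hk2
        constructor
        · rw [Int.ceil_le]
          push_cast
          linarith
        · rw [Int.le_floor]
          push_cast
          linarith
      · rw [Set.indicator_of_notMem hk, if_neg]
        rintro ⟨h1, h2⟩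
        apply hk
        rw [Int.ceil_le] at h1
        rw [Int.le_floor] at h2
        push_cast at h1 h2
        constructor
        · rw [le_div_iff₀ hr]
          linarith
        · rw [div_le_iff₀ hr]
          linarith
    simp only
    rw [h1]
    exact (hs1 l).le

end Pool.Agent.J4H18.KP
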