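import Mathlib
import Pool.Agent.J4H26.KP.Supr
import Pool.Agent.J4H18.KP.Supw

set_option autoImplicit false

/-! Project KP, piece R3: coalescing walks in several groups, apart from each other and in few clusters. -/

namespace Pool.Agent.J4H18.KP

open Finset Filter Real
open Pool.Agent.J4H39.KP (nc)
open Pool.Agent.J4H26.KT (iw cw sw isE_cw isE_iw sw_nonneg)
open Pool.Agent.J4H26.KP (SepG sepG sepI ii S_SEPR S_QNTR S_SUPR)

variable {K r : ℕ}

open Classical in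
/-- the weight from below -/
theorem sepG_low {γ : Fin K → Fin r} {δ l : ℝ} (hδ0 : 0 < δ) (hl : l = -Real.log δ) (hl0 : 0 ≤ l) (b : ℝ) (u : Fin K → ℤ) :
    Real.exp (-(l * b)) * (1 + l * b) * sepI γ u + (-(Real.exp (-(l * b)) * l)) * (nc u : ℝ) ≤ sepG γ δ u := by
  unfold sepG sepI
  by_cases hS : SepG γ u
  · rw [if_pos hS, if_pos hS, mul_one]
    have h1 : δ ^ nc u = Real.exp (-(l * nc u)) := by
      have h0 : δ = Real.exp (Real.log δ) := (Real.exp_log hδ0).symm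
      calc δ ^ nc u = Real.exp (Real.log δ) ^ nc u := by rw [← h0]
        _ = Real.exp (-(l * nc u)) := by
          rw [← Real.exp_nat_mul, hl]
          congr 1; ring
    rw [h1]
    have h2 := Real.add_one_le_exp (l * b - l * nc u)
    have h3 : Real.exp (-(l * nc u)) = Real.exp (-(l * b)) * Real.exp (l * b - l * nc u) := by
      rw [← Real.exp_add]; congr 1; ring
    rw [h3]
    calc Real.exp (-(l * b)) * (1 + l * b) + (-(Real.exp (-(l * b)) * l)) * (nc u : ℝ) =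
          Real.exp (-(l * b)) * (l * b - l * nc u + 1) := by ring
      _ ≤ _ := mul_le_mul_of_nonneg_left h2 (Real.exp_pos _).le
  · rw [if_neg hS, if_neg hS, mul_zero, zero_add]
    have : 0 ≤ Real.exp (-(l * b)) * l * (nc u : ℝ) := by positivity
    linarith

/-- the weight is nonnegative -/
theorem sepG_nonneg {γ : Fin K → Fin r} {δ : ℝ} (hδ0 : 0 < δ) (u : Fin K → ℤ) : 0 ≤ sepG γ δ u := by
  unfold sepG
  split_ifs
  · positivity
  · exact le_rfl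

/-- the bound for fixed parameters -/
theorem asmG {γ : Fin K → Fin r} {k h s : ℕ} (hk : 1 ≤ k) (hh : 1 ≤ h) (hs : 1 ≤ s) {δ l c γ' M ξ : ℝ} (hδ0 : 0 < δ)
    (hl : l = -Real.log δ) (hl0 : 0 ≤ l) (hc0 : 0 < c) (hM : 0 < M) (hξ0 : 0 < ξ) (hγ0 : 0 ≤ γ')
    (lo hi : Fin r → ℤ) (hU : ∀ z : Fin K → ℤ, (∀ i, lo (γ i) ≤ z i ∧ z i ≤ hi (γ i)) → c ≤ cw (sepI γ) k z)
    (hp : ∀ j, ξ ≤ sw (ii (lo j) (hi j)) s 0)
    (hn : (2 * M * √ (s : ℝ) / h + 2) + (K : ℝ) * (1 / (4 * M ^ 2) / ξ) + (K : ℝ) * (3 * h / √ (k : ℝ)) ≤ γ' * (K : ℝ)) :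
    Real.exp (-(l * (γ' * (K : ℝ) / c))) * c * (∏ i, sw (ii (lo (γ i)) (hi (γ i))) s 0) ≤
      iw (cw (sepG γ δ) k) s (fun _ => 0) := by
  classical
  obtain ⟨φ, hφ⟩ : ∃ φ : Fin K → ℤ → ℝ, φ = fun i : Fin K => ii (lo (γ i)) (hi (γ i)) := ⟨_, rfl⟩
  have h0 : ∀ i v, 0 ≤ φ i v := by
    intro i v
    rw [hφ]
    simp only
    unfold ii
    split_ifs <;> norm_num
  have h1 : ∀ i v, φ i v ≤ 1 := by
    intro i v
    rw [hφ]
    simp only
    unfold ii
    split_ifs <;> norm_num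
  have hξ : ∀ i, ξ ≤ sw (φ i) s 0 := by
    intro i
    rw [hφ]
    exact hp (γ i)
  have hiwA : iw (fun z : Fin K → ℤ => ∏ i, φ i (z i)) s (fun _ => 0) = ∏ i, sw (ii (lo (γ i)) (hi (γ i))) s 0 := by
    rw [iw_prod, hφ]
  have hE := isE_iw (k := K) s (fun _ => 0)
  obtain ⟨β, hβ⟩ : ∃ β : ℝ, β = γ' * (K : ℝ) / c := ⟨_, rfl⟩
  have hβ0 : 0 ≤ β := by rw [hβ]; positivity
  have hβc : β * c = γ' * (K : ℝ) := by rw [hβ]; field_simp
  rw [← hβ, ← hiwA]
  have hpt : ∀ z : Fin K → ℤ, (Real.exp (-(l * β)) * ((1 + l * β) * c)) * (∏ i, φ i (z i)) +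
      (-(Real.exp (-(l * β)) * l)) * ((∏ i, φ i (z i)) * cw (fun u : Fin K → ℤ => (nc u : ℝ)) k z) ≤
      cw (sepG γ δ) k z := by
    intro z
    by_cases hz : ∀ i, φ i (z i) ≠ 0
    · have hz1 : ∀ i : Fin K, lo (γ i) ≤ z i ∧ z i ≤ hi (γ i) := by
        intro i
        by_contra hcon
        apply hz i
        rw [hφ]
        simp only
        unfold ii
        rw [if_neg hcon]
      have hz3 : ∏ i, φ i (z i) = 1 := by
        apply prod_eq_one
        intro i _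
        rw [hφ]
        simp only
        unfold ii
        rw [if_pos (hz1 i)]
      rw [hz3, mul_one, one_mul]
      have e1 := hU z hz1
      have e2 := (isE_cw k z).mono _ _ (fun u => sepG_low (γ := γ) hδ0 hl hl0 β u)
      rw [(isE_cw k z).add, (isE_cw k z).smul, (isE_cw k z).smul] at e2
      refine le_trans ?_ e2
      have e3 : 0 ≤ Real.exp (-(l * β)) * (1 + l * β) := by positivity
      have e4 := mul_le_mul_of_nonneg_left e1 e3
      have e5 : cw (fun u => sepI γ u) k z = cw (sepI γ) k z := rfl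
      rw [e5]
      linarith
    · push Not at hz
      obtain ⟨i, hi⟩ := hz
      rw [prod_eq_zero (mem_univ i) hi, mul_zero, zero_mul, mul_zero, add_zero]
      exact (isE_cw k z).nonneg (fun u => sepG_nonneg hδ0 u)
  have e5 := hE.mono _ _ hpt
  rw [hE.add, hE.smul, hE.smul] at e5
  refine le_trans ?_ e5
  have e6 := nc_tilt φ h0 h1 hk hh hs hM hξ hξ0
  have hA0 : 0 ≤ iw (fun z : Fin K → ℤ => ∏ i, φ i (z i)) s (fun _ => 0) :=
    hE.nonneg (fun z => prod_nonneg fun i _ => h0 i _)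
  have e7 : iw (fun z : Fin K → ℤ => (∏ i, φ i (z i)) * cw (fun u : Fin K → ℤ => (nc u : ℝ)) k z) s (fun _ => 0) ≤
      β * c * iw (fun z : Fin K → ℤ => ∏ i, φ i (z i)) s (fun _ => 0) := by
    rw [hβc]
    exact e6.trans (mul_le_mul_of_nonneg_right hn hA0)
  have e8 : 0 ≤ Real.exp (-(l * β)) * l := by positivity
  have e9 := mul_le_mul_of_nonneg_left e7 e8
  linarith

/-- (R3) -/
theorem t_SUPR : S_SEPR → S_QNTR → S_SUPR := by
  intro hSE hQ r x δ ρ ρ' κ hx0 hxs hδ0 hδ1 hρ' hρ hκ0 hκ1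
  obtain ⟨l, hl⟩ : ∃ l : ℝ, l = -Real.log δ := ⟨_, rfl⟩
  have hl0 : 0 ≤ l := by rw [hl]; have := Real.log_nonpos hδ0.le hδ1; linarith
  obtain ⟨t, ht⟩ : ∃ t : ℝ, t = √κ := ⟨_, rfl⟩
  have ht0 : 0 < t := by rw [ht]; exact Real.sqrt_pos.2 hκ0
  have ht1 : t < 1 := by rw [ht]; exact (Real.sqrt_lt' one_pos).2 (by linarith)
  have htκ : t * t = κ := by rw [ht]; exact Real.mul_self_sqrt hκ0.le
  obtain ⟨xm, hxm0, hxm⟩ : ∃ xm : ℝ, 0 < xm ∧ ∀ j, xm ≤ x j := by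
    rcases Nat.eq_zero_or_pos r with hr | hr
    · subst hr
      exact ⟨1, one_pos, fun j => j.elim0⟩
    · haveI : Nonempty (Fin r) := ⟨⟨0, hr⟩⟩
      obtain ⟨j₀, hj₀⟩ := Finite.exists_min x
      exact ⟨x j₀, hx0 j₀, hj₀⟩
  obtain ⟨η, hη⟩ : ∃ η : ℝ, η = (1 - t) * xm := ⟨_, rfl⟩
  have hη0 : 0 < η := by rw [hη]; exact mul_pos (by linarith) hxm0
  have hx2 : ∀ j, t * x j ≤ x j - η := by
    intro j
    have : (1 - t) * xm ≤ (1 - t) * x j := mul_le_mul_of_nonneg_left (hxm j) (by linarith)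
    rw [hη]; linarith
  obtain ⟨ξ, hξ⟩ : ∃ ξ : ℝ, ξ = t * xm := ⟨_, rfl⟩
  have hξ0 : 0 < ξ := by rw [hξ]; positivity
  have hξ1 : ∀ j, ξ ≤ x j - η := by
    intro j
    rw [hξ]
    exact (mul_le_mul_of_nonneg_left (hxm j) ht0.le).trans (hx2 j)
  obtain ⟨g, hg, hqn⟩ := hQ r x η hx0 hxs hη0
  have hsρ : 0 < √ρ' := Real.sqrt_pos.2 hρ'
  obtain ⟨c, hc0, hu⟩ := hSE r (g * √ρ') (by positivity)
  obtain ⟨w, hw⟩ : ∃ w : ℝ, w = -Real.log t := ⟨_, rfl⟩
  have hw0 : 0 < w := by rw [hw]; have := Real.log_neg ht0 ht1; linarith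
  obtain ⟨γ', hγ⟩ : ∃ γ' : ℝ, γ' = w * c / (2 * (l + 1)) := ⟨_, rfl⟩
  have hγ0 : 0 < γ' := by rw [hγ]; positivity
  have hlγ : l * (γ' / c) ≤ w / 2 := by
    have e : γ' / c = w / (2 * (l + 1)) := by rw [hγ]; field_simp
    rw [e, ← mul_div_assoc, div_le_div_iff₀ (by positivity) (by norm_num)]
    nlinarith
  obtain ⟨M, hM⟩ : ∃ M : ℝ, M = √ (2 / (γ' * ξ)) := ⟨_, rfl⟩
  have hM0 : 0 < M := by rw [hM]; exact Real.sqrt_pos.2 (by positivity)
  have hM2 : M ^ 2 = 2 / (γ' * ξ) := by rw [hM]; exact Real.sq_sqrt (by positivity)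
  have hMγ : 1 / (4 * M ^ 2) / ξ = γ' / 8 := by rw [hM2]; field_simp; norm_num
  obtain ⟨K₁, hK₁⟩ := num_small (ρ := ρ) hγ0 hρ hM0
  refine ⟨max K₁ ⌈4 / (w * c)⌉₊, fun K hK γ => ?_⟩
  obtain ⟨s₀, hs₀⟩ := eventually_atTop.1 hqn
  have hks : Tendsto (fun k : ℕ => ρ' * (k : ℝ)) atTop atTop :=
    Tendsto.const_mul_atTop hρ' tendsto_natCast_atTop_atTop
  filter_upwards [hK₁ K ((le_max_left _ _).trans hK), hu, eventually_ge_atTop 1,
    hks.eventually_ge_atTop (s₀ + 1 : ℝ)] with k hk1 hk2 hk3 hk4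
  intro s hs1 hs2
  obtain ⟨h, hh, hn⟩ := hk1
  have hs3 : (s₀ : ℝ) + 1 ≤ s := hk4.trans hs1
  have hs4 : s₀ + 1 ≤ s := by exact_mod_cast hs3
  obtain ⟨lo, hi, hlh, hle, hmass⟩ := hs₀ s (by omega)
  have hgs : g * √ρ' * √ (k : ℝ) ≤ g * √ (s : ℝ) := by
    rw [mul_assoc, ← Real.sqrt_mul hρ'.le]
    exact mul_le_mul_of_nonneg_left (Real.sqrt_le_sqrt hs1) hg.le
  have hn2 := hn s hs2
  rw [← hMγ] at hn2
  have hU : ∀ z : Fin K → ℤ, (∀ i, lo (γ i) ≤ z i ∧ z i ≤ hi (γ i)) → c ≤ cw (sepI γ) k z := by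
    intro z hz
    exact hk2 K γ lo hi (fun j j' hjj => by have := hlh j j' hjj; linarith) hle z hz
  have key := asmG (γ := γ) (δ := δ) (l := l) (c := c) (γ' := γ') (M := M) (ξ := ξ) hk3 hh
    (by omega : 1 ≤ s) hδ0 hl hl0 hc0 hM0 hξ0 hγ0.le lo hi hU (fun j => (hξ1 j).trans (hmass j)) hn2
  refine le_trans ?_ key
  have hN0 : (0 : ℝ) ≤ K := by positivity
  have hNK : 2 / c ≤ w * K / 2 := by
    have h1 : 4 / (w * c) ≤ K := (Nat.le_ceil _).trans (by exact_mod_cast (le_max_right _ _).trans hK)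
    rw [div_le_iff₀ (by positivity)] at h1
    rw [div_le_iff₀ hc0]
    linarith
  have htN : t ^ K = Real.exp (-(w * K)) := by
    have h0 : t = Real.exp (Real.log t) := (Real.exp_log ht0).symm
    calc t ^ K = Real.exp (Real.log t) ^ K := by rw [← h0]
      _ = Real.exp (-(w * K)) := by
        rw [← Real.exp_nat_mul, hw]
        congr 1; ring
  have h2t : 2 * t ^ K ≤ Real.exp (-(l * (γ' * (K : ℝ) / c))) * c := by
    rw [htN]
    have f1 : l * (γ' * K / c) ≤ w * K / 2 := by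
      have := mul_le_mul_of_nonneg_right hlγ hN0
      calc l * (γ' * K / c) = l * (γ' / c) * K := by ring
        _ ≤ w / 2 * K := this
        _ = w * K / 2 := by ring
    have f2 : Real.exp (-(w * K / 2)) ≤ Real.exp (-(l * (γ' * K / c))) := Real.exp_le_exp.2 (by linarith)
    have f3 : 2 / c ≤ Real.exp (w * K / 2) := by
      have := Real.add_one_le_exp (w * K / 2)
      linarith
    have f4 : 2 ≤ c * Real.exp (w * K / 2) := by
      rw [div_le_iff₀ hc0] at f3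
      linarith
    calc 2 * Real.exp (-(w * K)) ≤ c * Real.exp (w * K / 2) * Real.exp (-(w * K)) :=
          mul_le_mul_of_nonneg_right f4 (Real.exp_pos _).le
      _ = c * Real.exp (-(w * K / 2)) := by
          rw [mul_assoc, ← Real.exp_add]
          congr 2; ring
      _ ≤ c * Real.exp (-(l * (γ' * K / c))) := mul_le_mul_of_nonneg_left f2 hc0.le
      _ = _ := by ring
  have hmass2 : t ^ K * ∏ i, x (γ i) ≤ ∏ i, sw (ii (lo (γ i)) (hi (γ i))) s 0 := by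
    have e : t ^ K * ∏ i, x (γ i) = ∏ i, (t * x (γ i)) := by
      rw [prod_mul_distrib, prod_const, card_univ, Fintype.card_fin]
    rw [e]
    exact prod_le_prod (fun i _ => mul_nonneg ht0.le (hx0 _).le) (fun i _ => (hx2 (γ i)).trans (hmass (γ i)))
  have hxx : 0 ≤ ∏ i, x (γ i) := prod_nonneg fun i _ => (hx0 _).le
  calc 2 * κ ^ K * ∏ i, x (γ i) = (2 * t ^ K) * (t ^ K * ∏ i, x (γ i)) := by
        rw [← htκ, mul_pow]; ring
    _ ≤ (Real.exp (-(l * (γ' * (K : ℝ) / c))) * c) * (∏ i, sw (ii (lo (γ i)) (hi (γ i))) s 0) :=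
        mul_le_mul h2t hmass2 (mul_nonneg (pow_nonneg ht0.le _) hxx) (mul_nonneg (Real.exp_pos _).le hc0.le)

end Pool.Agent.J4H18.KP
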